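import Pool.Agent.OVW.D.Stmts

/-! # Block D, module CLO: universal closures -/

namespace Pool.Agent.OVW

namespace CLO

/-- A closed tautology. -/
def tt : Form := .imp (.eq .zero .zero) (.eq .zero .zero)

theorem taut_tt : tt.Tautology := by
  intro e _ _ _ hi
  unfold tt
  simp only [hi]
  tauto

theorem prf_imp {T : Set Form} {ψ : Form} (h : Prf T ψ) : Prf T (.imp tt ψ) := by
  refine .mp (.taut ?_) h
  intro e _ _ _ hi
  simp only [hi]
  tauto

theorem gen {T : Set Form} {ψ : Form} (i : ℕ) (h : Prf T ψ) : Prf T (.all i ψ) := by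
  refine .mp (.allIntro ?_ (prf_imp h)) (.taut taut_tt)
  unfold tt
  simp [Form.FreeNum, Term.Occurs]

theorem genSet {T : Set Form} {ψ : Form} (i : ℕ) (h : Prf T ψ) : Prf T (.allSet i ψ) := by
  refine .mp (.allSetIntro ?_ (prf_imp h)) (.taut taut_tt)
  unfold tt
  simp [Form.FreeSet]

theorem lt_bd_term {i : ℕ} (t : Term) (h : t.Occurs i) : i < t.bd := by
  induction t with
  | var j =>
    simp only [Term.Occurs] at h
    simp only [Term.bd]
    omega
  | zero => exact h.elim
  | one => exact h.elim
  | add s t hs ht =>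
    simp only [Term.bd]
    rcases h with h | h
    · exact lt_of_lt_of_le (hs h) (le_max_left _ _)
    · exact lt_of_lt_of_le (ht h) (le_max_right _ _)
  | mul s t hs ht =>
    simp only [Term.bd]
    rcases h with h | h
    · exact lt_of_lt_of_le (hs h) (le_max_left _ _)
    · exact lt_of_lt_of_le (ht h) (le_max_right _ _)

theorem freeNum_lt {i : ℕ} (φ : Form) (h : φ.FreeNum i) : i < φ.bd := by
  induction φ with
  | eq s t =>
    simp only [Form.bd]
    rcases h with h | h
    · exact lt_of_lt_of_le (lt_bd_term s h) (le_max_left _ _)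
    · exact lt_of_lt_of_le (lt_bd_term t h) (le_max_right _ _)
  | lt s t =>
    simp only [Form.bd]
    rcases h with h | h
    · exact lt_of_lt_of_le (lt_bd_term s h) (le_max_left _ _)
    · exact lt_of_lt_of_le (lt_bd_term t h) (le_max_right _ _)
  | mem s X =>
    simp only [Form.bd]
    exact lt_of_lt_of_le (lt_bd_term s h) (le_max_left _ _)
  | neg φ ih => exact ih h
  | and φ ψ ih1 ih2 =>
    simp only [Form.bd]
    rcases h with h | h
    · exact lt_of_lt_of_le (ih1 h) (le_max_left _ _)
    · exact lt_of_lt_of_le (ih2 h) (le_max_right _ _)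
  | or φ ψ ih1 ih2 =>
    simp only [Form.bd]
    rcases h with h | h
    · exact lt_of_lt_of_le (ih1 h) (le_max_left _ _)
    · exact lt_of_lt_of_le (ih2 h) (le_max_right _ _)
  | imp φ ψ ih1 ih2 =>
    simp only [Form.bd]
    rcases h with h | h
    · exact lt_of_lt_of_le (ih1 h) (le_max_left _ _)
    · exact lt_of_lt_of_le (ih2 h) (le_max_right _ _)
  | all j φ ih =>
    simp only [Form.bd]
    exact lt_of_lt_of_le (ih h.2) (le_max_right _ _)
  | ex j φ ih =>
    simp only [Form.bd]
    exact lt_of_lt_of_le (ih h.2) (le_max_right _ _)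
  | allSet X φ ih =>
    simp only [Form.bd]
    exact lt_of_lt_of_le (ih h) (le_max_right _ _)
  | exSet X φ ih =>
    simp only [Form.bd]
    exact lt_of_lt_of_le (ih h) (le_max_right _ _)

theorem freeSet_lt {i : ℕ} (φ : Form) (h : φ.FreeSet i) : i < φ.bd := by
  induction φ with
  | eq s t => exact h.elim
  | lt s t => exact h.elim
  | mem s X =>
    simp only [Form.bd]
    simp only [Form.FreeSet] at h
    subst h
    exact lt_of_lt_of_le (Nat.lt_succ_self i) (le_max_right _ _)
  | neg φ ih => exact ih h
  | and φ ψ ih1 ih2 =>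
    simp only [Form.bd]
    rcases h with h | h
    · exact lt_of_lt_of_le (ih1 h) (le_max_left _ _)
    · exact lt_of_lt_of_le (ih2 h) (le_max_right _ _)
  | or φ ψ ih1 ih2 =>
    simp only [Form.bd]
    rcases h with h | h
    · exact lt_of_lt_of_le (ih1 h) (le_max_left _ _)
    · exact lt_of_lt_of_le (ih2 h) (le_max_right _ _)
  | imp φ ψ ih1 ih2 =>
    simp only [Form.bd]
    rcases h with h | h
    · exact lt_of_lt_of_le (ih1 h) (le_max_left _ _)
    · exact lt_of_lt_of_le (ih2 h) (le_max_right _ _)
  | all j φ ih =>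
    simp only [Form.bd]
    exact lt_of_lt_of_le (ih h) (le_max_right _ _)
  | ex j φ ih =>
    simp only [Form.bd]
    exact lt_of_lt_of_le (ih h) (le_max_right _ _)
  | allSet X φ ih =>
    simp only [Form.bd]
    exact lt_of_lt_of_le (ih h.2) (le_max_right _ _)
  | exSet X φ ih =>
    simp only [Form.bd]
    exact lt_of_lt_of_le (ih h.2) (le_max_right _ _)

theorem clo_succ (k : ℕ) (φ : Form) : clo (k + 1) φ = clo k (.all k (.allSet k φ)) := by
  unfold clo
  rw [List.range_succ, List.foldr_append]
  rfl

theorem sat_clo (𝔐 : Model) (v : ℕ → 𝔐.M) (V : ℕ → Set 𝔐.M) (hV : ∀ X, V X ∈ 𝔐.S) (k : ℕ) :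
    ∀ φ : Form, (clo k φ).Sat 𝔐 v V → ∀ (w : ℕ → 𝔐.M) (W : ℕ → Set 𝔐.M), (∀ X, W X ∈ 𝔐.S) →
      (∀ i, k ≤ i → w i = v i) → (∀ i, k ≤ i → W i = V i) → φ.Sat 𝔐 w W := by
  induction k with
  | zero =>
    intro φ h w W _ hw hW
    have h1 : w = v := funext fun i => hw i (Nat.zero_le i)
    have h2 : W = V := funext fun i => hW i (Nat.zero_le i)
    rw [h1, h2]
    exact h
  | succ k ih =>
    intro φ h w W hWS hw hW
    rw [clo_succ] at h
    have h1 := ih _ h (Function.update w k (v k)) (Function.update W k (V k)) (by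
      intro X
      by_cases hX : X = k
      · subst hX
        rw [Function.update_self]
        exact hV X
      · rw [Function.update_of_ne hX]
        exact hWS X) (by
      intro i hi
      by_cases hik : i = k
      · subst hik
        rw [Function.update_self]
      · rw [Function.update_of_ne hik]
        exact hw i (by omega)) (by
      intro i hi
      by_cases hik : i = k
      · subst hik
        rw [Function.update_self]
      · rw [Function.update_of_ne hik]
        exact hW i (by omega))
    have h2 : (Form.allSet k φ).Sat 𝔐 (Function.update (Function.update w k (v k)) k (w k))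
        (Function.update W k (V k)) := h1 (w k)
    have h3 : φ.Sat 𝔐 (Function.update (Function.update w k (v k)) k (w k))
        (Function.update (Function.update W k (V k)) k (W k)) := h2 (W k) (hWS k)
    rw [Function.update_idem, Function.update_idem, Function.update_eq_self,
      Function.update_eq_self] at h3
    exact h3

end CLO

theorem t_Clo1 : StmtClo1 := by
  intro T φ h k
  unfold clo
  induction List.range k with
  | nil => exact h
  | cons i l ih => exact CLO.gen i (CLO.genSet i ih)

theorem t_Clo2 (hC : StmtDCoi) : StmtClo2 := by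
  intro φ
  refine ⟨φ.bd, ?_⟩
  intro 𝔐 v V hV h w W hW
  have h1 := CLO.sat_clo 𝔐 v V hV φ.bd φ h (fun i => if i < φ.bd then w i else v i)
    (fun i => if i < φ.bd then W i else V i) (by
      intro X
      show (if X < φ.bd then W X else V X) ∈ 𝔐.S
      split_ifs
      · exact hW X
      · exact hV X) (fun i hi => if_neg (not_lt.2 hi)) (fun i hi => if_neg (not_lt.2 hi))
  refine (hC 𝔐 φ _ _ _ _ ?_ ?_).1 h1
  · intro i hi
    exact if_pos (CLO.freeNum_lt φ hi)
  · intro i hi
    exact if_pos (CLO.freeSet_lt φ hi)

end Pool.Agent.OVW
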