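import Pool.Agent.OVW.D.Stmts

/-! # Block D, module LIN: existence of complete Henkin sets -/

namespace Pool.Agent.OVW

namespace LIN

/-! ### The formulas are countable -/

deriving instance Countable for Term
deriving instance Countable for Form

/-! ### Propositional steps -/

variable {T : Set Form}

theorem imp_self (a : Form) : Prf T (.imp a a) :=
  .taut (by intro e hn ha ho hi; simp only [hi]; tauto)

theorem and_left (a b : Form) : Prf T (.imp (.and a b) a) :=
  .taut (by intro e hn ha ho hi; simp only [ha, hi]; tauto)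

theorem and_right (a b : Form) : Prf T (.imp (.and a b) b) :=
  .taut (by intro e hn ha ho hi; simp only [ha, hi]; tauto)

theorem trans {a b c : Form} (h1 : Prf T (.imp a b)) (h2 : Prf T (.imp b c)) :
    Prf T (.imp a c) := by
  have h3 : Prf T (.imp (.imp a b) (.imp (.imp b c) (.imp a c))) :=
    .taut (by intro e hn ha ho hi; simp only [hi]; tauto)
  exact .mp (.mp h3 h1) h2

theorem mp_under {a b c : Form} (h1 : Prf T (.imp a (.imp b c))) (h2 : Prf T (.imp a b)) :
    Prf T (.imp a c) := by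
  have h3 : Prf T (.imp (.imp a (.imp b c)) (.imp (.imp a b) (.imp a c))) :=
    .taut (by intro e hn ha ho hi; simp only [hi]; tauto)
  exact .mp (.mp h3 h1) h2

theorem of_neg_neg {a : Form} (h : Prf T (.neg (.neg a))) : Prf T a :=
  .mp (.taut (by intro e hn ha ho hi; simp only [hn, hi]; tauto)) h

theorem weaken {a b : Form} (h : Prf T b) : Prf T (.imp a b) :=
  .mp (.taut (by intro e hn ha ho hi; simp only [hi]; tauto)) h

theorem neg_of {a b : Form} (h1 : Prf T (.imp a b)) (h2 : Prf T (.imp a (.neg b))) :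
    Prf T (.neg a) := by
  have h3 : Prf T (.imp (.imp a b) (.imp (.imp a (.neg b)) (.neg a))) :=
    .taut (by intro e hn ha ho hi; simp only [hn, hi]; tauto)
  exact .mp (.mp h3 h1) h2

theorem neg_of_and {a b : Form} (h1 : Prf T (.neg (.and a b)))
    (h2 : Prf T (.neg (.and a (.neg b)))) : Prf T (.neg a) := by
  have h3 : Prf T (.imp (.neg (.and a b)) (.imp (.neg (.and a (.neg b))) (.neg a))) :=
    .taut (by intro e hn ha ho hi; simp only [hn, ha, hi]; tauto)
  exact .mp (.mp h3 h1) h2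

/-! ### One step -/

/-- The positive case. -/
def Pos (T : Set Form) (γ' ψ : Form) (n : ℕ) : Prop :=
  Prf T (.imp γ' ψ) ∧
    (∀ i χ, ψ = .ex i χ → ∃ j ≥ n, Prf T (.imp γ' (χ.subst i (.var j)))) ∧
    ∀ X χ, ψ = .exSet X χ → ∃ Y ≥ n, Prf T (.imp γ' (χ.substSet X Y))

theorem step (h1 : StmtDWit) (h2 : StmtDWis) (γ ψ : Form) (n : ℕ) (hγ : Con T γ) :
    ∃ γ', Con T γ' ∧ Prf T (.imp γ' γ) ∧ (Pos T γ' ψ n ∨ Prf T (.imp γ' (.neg ψ))) := by
  by_cases h : Con T (.and γ ψ)
  · by_cases hex : ∃ i χ, ψ = .ex i χ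
    · obtain ⟨i, χ, rfl⟩ := hex
      let j := max n (max γ.bd (Form.ex i χ).bd)
      have hj1 : γ.bd ≤ j := le_trans (le_max_left _ _) (le_max_right _ _)
      have hj2 : (Form.ex i χ).bd ≤ j := le_trans (le_max_right _ _) (le_max_right _ _)
      refine ⟨_, h1 T γ χ i j hj1 hj2 h, trans (and_left _ _) (and_left _ _), Or.inl
        ⟨trans (and_left _ _) (and_right _ _), ?_, ?_⟩⟩
      · intro i' χ' he
        cases he
        exact ⟨j, le_max_left _ _, and_right _ _⟩
      · intro X χ' he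
        cases he
    · by_cases hexs : ∃ X χ, ψ = .exSet X χ
      · obtain ⟨X, χ, rfl⟩ := hexs
        let j := max n (max γ.bd (Form.exSet X χ).bd)
        have hj1 : γ.bd ≤ j := le_trans (le_max_left _ _) (le_max_right _ _)
        have hj2 : (Form.exSet X χ).bd ≤ j := le_trans (le_max_right _ _) (le_max_right _ _)
        refine ⟨_, h2 T γ χ X j hj1 hj2 h, trans (and_left _ _) (and_left _ _), Or.inl
          ⟨trans (and_left _ _) (and_right _ _), ?_, ?_⟩⟩
        · intro i' χ' he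
          cases he
        · intro X χ' he
          cases he
          exact ⟨j, le_max_left _ _, and_right _ _⟩
      · refine ⟨_, h, and_left _ _, Or.inl ⟨and_right _ _, ?_, ?_⟩⟩
        · intro i χ he
          exact absurd ⟨i, χ, he⟩ hex
        · intro X χ he
          exact absurd ⟨X, χ, he⟩ hexs
  · have h' : Prf T (.neg (.and γ ψ)) := not_not.1 h
    refine ⟨.and γ (.neg ψ), ?_, and_left _ _, Or.inr (and_right _ _)⟩
    intro h3
    exact hγ (neg_of_and h' h3)

end LIN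

theorem t_Henkin (h1 : StmtDWit) (h2 : StmtDWis) : StmtHenkin := by
  intro T φ hφ
  have : Nonempty Form := ⟨φ⟩
  obtain ⟨e, he⟩ := exists_surjective_nat Form
  have h0 : Con T (.neg φ) := fun h => hφ (LIN.of_neg_neg h)
  choose next hn using fun (γ : {γ : Form // Con T γ}) (n : ℕ) =>
    LIN.step h1 h2 γ.1 (e n.unpair.1) n γ.2
  let g : ℕ → {γ : Form // Con T γ} := fun n => Nat.rec ⟨.neg φ, h0⟩
    (fun n γ => ⟨next γ n, (hn γ n).1⟩) n
  have g0 : (g 0).1 = .neg φ := rfl
  have gs : ∀ n, (g (n + 1)).1 = next (g n) n := fun n => rfl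
  have hstep : ∀ n, Prf T (.imp (g (n + 1)).1 (g n).1) := fun n => by
    rw [gs]
    exact (hn (g n) n).2.1
  have hmono : ∀ m n, m ≤ n → Prf T (.imp (g n).1 (g m).1) := by
    intro m n h
    induction h with
    | refl => exact LIN.imp_self _
    | step _ ih => exact LIN.trans (hstep _) ih
  have hcons : ∀ m n ψ, Prf T (.imp (g m).1 ψ) → Prf T (.imp (g n).1 (.neg ψ)) → False := by
    intro m n ψ h3 h4
    refine (g (max m n)).2 (LIN.neg_of (b := ψ) ?_ ?_)
    · exact LIN.trans (hmono _ _ (le_max_left m n)) h3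
    · exact LIN.trans (hmono _ _ (le_max_right m n)) h4
  have hcompl : ∀ ψ k, ∃ n ≥ k, LIN.Pos T (g (n + 1)).1 ψ n ∨
      Prf T (.imp (g (n + 1)).1 (.neg ψ)) := by
    intro ψ k
    obtain ⟨m, rfl⟩ := he ψ
    refine ⟨Nat.pair m k, Nat.right_le_pair m k, ?_⟩
    have h3 := (hn (g (Nat.pair m k)) (Nat.pair m k)).2.2
    rw [Nat.unpair_pair] at h3
    rw [gs]
    exact h3
  refine ⟨{ψ | ∃ n, Prf T (.imp (g n).1 ψ)}, ⟨?_, ?_, ?_, ?_, ?_⟩, ?_⟩
  · intro ψ hψ
    exact ⟨0, LIN.weaken hψ⟩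
  · rintro ψ χ ⟨m, hm⟩ ⟨n, hn'⟩
    refine ⟨max m n, LIN.mp_under (b := ψ) ?_ ?_⟩
    · exact LIN.trans (hmono _ _ (le_max_left m n)) hm
    · exact LIN.trans (hmono _ _ (le_max_right m n)) hn'
  · intro ψ
    constructor
    · rintro ⟨m, hm⟩ ⟨n, hn'⟩
      exact hcons n m ψ hn' hm
    · intro h3
      obtain ⟨n, -, h4 | h4⟩ := hcompl ψ 0
      · exact absurd ⟨n + 1, h4.1⟩ h3
      · exact ⟨n + 1, h4⟩
  · rintro i χ ⟨m, hm⟩ k
    obtain ⟨n, hnk, h4 | h4⟩ := hcompl (.ex i χ) k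
    · obtain ⟨j, hj, hj'⟩ := h4.2.1 i χ rfl
      exact ⟨j, hnk.trans hj, n + 1, hj'⟩
    · exact (hcons m (n + 1) _ hm h4).elim
  · rintro X χ ⟨m, hm⟩ k
    obtain ⟨n, hnk, h4 | h4⟩ := hcompl (.exSet X χ) k
    · obtain ⟨j, hj, hj'⟩ := h4.2.2 X χ rfl
      exact ⟨j, hnk.trans hj, n + 1, hj'⟩
    · exact (hcons m (n + 1) _ hm h4).elim
  · rintro ⟨n, hn'⟩
    exact hcons n 0 φ hn' (LIN.imp_self _)

end Pool.Agent.OVW
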