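import Pool.Agent.OVW.D.Stmts

/-!
# Block D: soundness of the calculus
-/

namespace Pool.Agent.OVW

namespace SND

/-- Changing the value of a number variable which is not free. -/
theorem upd_num (hC : StmtDCoi) {𝔐 : Model} {φ : Form} {i : ℕ} (hi : ¬ φ.FreeNum i)
    (v : ℕ → 𝔐.M) (V : ℕ → Set 𝔐.M) (a : 𝔐.M) :
    φ.Sat 𝔐 (Function.update v i a) V ↔ φ.Sat 𝔐 v V := by
  refine hC 𝔐 φ _ _ V V (fun j hj => ?_) (fun _ _ => rfl)
  have hne : j ≠ i := by
    rintro rfl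
    exact hi hj
  rw [Function.update_of_ne hne]

/-- Changing the value of a set variable which is not free. -/
theorem upd_set (hC : StmtDCoi) {𝔐 : Model} {φ : Form} {X : ℕ} (hX : ¬ φ.FreeSet X)
    (v : ℕ → 𝔐.M) (V : ℕ → Set 𝔐.M) (A : Set 𝔐.M) :
    φ.Sat 𝔐 v (Function.update V X A) ↔ φ.Sat 𝔐 v V := by
  refine hC 𝔐 φ v v _ _ (fun _ _ => rfl) (fun j hj => ?_)
  have hne : j ≠ X := by
    rintro rfl
    exact hX hj
  rw [Function.update_of_ne hne]

/-- The updated assignment of sets stays in the structure. -/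
theorem upd_mem {𝔐 : Model} {V : ℕ → Set 𝔐.M} (hV : ∀ X, V X ∈ 𝔐.S) {A : Set 𝔐.M}
    (hA : A ∈ 𝔐.S) (X : ℕ) : ∀ Y, Function.update V X A Y ∈ 𝔐.S := by
  intro Y
  by_cases h : Y = X
  · subst h
    rw [Function.update_self]
    exact hA
  · rw [Function.update_of_ne h]
    exact hV Y

end SND

theorem t_Sound (hC : StmtDCoi) (hS : StmtDSub) (hS2 : StmtDSus) : StmtSound := by
  intro T φ h 𝔐 hT
  induction h with
  | ax h => exact hT _ h
  | taut h =>
    intro v V hV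
    exact h (fun ψ => ψ.Sat 𝔐 v V) (fun _ => Iff.rfl) (fun _ _ => Iff.rfl) (fun _ _ => Iff.rfl)
      (fun _ _ => Iff.rfl)
  | mp _ _ ih1 ih2 =>
    intro v V hV
    exact ih1 v V hV (ih2 v V hV)
  | allElim h =>
    intro v V hV ha
    exact (hS 𝔐 _ _ _ h v V).2 (ha _)
  | exIntro h =>
    intro v V hV ha
    exact ⟨_, (hS 𝔐 _ _ _ h v V).1 ha⟩
  | allIntro h _ ih =>
    intro v V hV ha a
    exact ih _ V hV ((SND.upd_num hC h v V a).2 ha)
  | exElim h _ ih =>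
    rintro v V hV ⟨a, ha⟩
    exact (SND.upd_num hC h v V a).1 (ih _ V hV ha)
  | @allSetElim X Y φ h =>
    intro v V hV ha
    exact (hS2 𝔐 _ _ _ h v V).2 (ha _ (hV Y))
  | @exSetIntro X Y φ h =>
    intro v V hV ha
    exact ⟨_, hV Y, (hS2 𝔐 _ _ _ h v V).1 ha⟩
  | @allSetIntro X φ ψ h _ ih =>
    intro v V hV ha A hA
    exact ih v _ (SND.upd_mem hV hA X) ((SND.upd_set hC h v V A).2 ha)
  | @exSetElim X φ ψ h _ ih =>
    rintro v V hV ⟨A, hA, ha⟩
    exact (SND.upd_set hC h v V A).1 (ih v _ (SND.upd_mem hV hA X) ha)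
  | eqRefl t => intro v V _; exact rfl
  | eqSymm s t => intro v V _ h; exact Eq.symm h
  | eqTrans s t u => intro v V _ h h'; exact Eq.trans h h'
  | eqAdd s t u w =>
    intro v V _ h h'
    exact congrArg₂ 𝔐.add h h'
  | eqMul s t u w =>
    intro v V _ h h'
    exact congrArg₂ 𝔐.mul h h'
  | eqLt s t u w =>
    intro v V _ h h' hl
    have h1 : s.eval 𝔐 v = t.eval 𝔐 v := h
    have h2 : u.eval 𝔐 v = w.eval 𝔐 v := h'
    have h3 : 𝔐.lt (s.eval 𝔐 v) (u.eval 𝔐 v) := hl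
    rw [h1, h2] at h3
    exact h3
  | eqMem s t X =>
    intro v V _ h hm
    have h1 : s.eval 𝔐 v = t.eval 𝔐 v := h
    have h2 : s.eval 𝔐 v ∈ V X := hm
    rw [h1] at h2
    exact h2

end Pool.Agent.OVW
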