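import Pool.Agent.OVW.D.Stmts

/-!
# Block D, module SUB: the substitution lemma for number variables
-/

namespace Pool.Agent.OVW

namespace SUB

theorem eval_subst (𝔐 : Model) (v : ℕ → 𝔐.M) (i : ℕ) (t : Term) (s : Term) :
    (s.subst i t).eval 𝔐 v = s.eval 𝔐 (Function.update v i (t.eval 𝔐 v)) := by
  induction s with
  | var j =>
    by_cases h : j = i
    · subst h
      simp [Term.subst, Term.eval]
    · simp [Term.subst, Term.eval, h]
  | zero => rfl
  | one => rfl
  | add a b ha hb => simp only [Term.subst, Term.eval, ha, hb]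
  | mul a b ha hb => simp only [Term.subst, Term.eval, ha, hb]

theorem eval_update (𝔐 : Model) (v : ℕ → 𝔐.M) (j : ℕ) (a : 𝔐.M) (t : Term)
    (h : ¬ t.Occurs j) : t.eval 𝔐 (Function.update v j a) = t.eval 𝔐 v := by
  induction t with
  | var k =>
    have hk : k ≠ j := fun e => h e.symm
    simp [Term.eval, hk]
  | zero => rfl
  | one => rfl
  | add s t hs ht =>
    simp only [Term.Occurs, not_or] at h
    simp only [Term.eval, hs h.1, ht h.2]
  | mul s t hs ht =>
    simp only [Term.Occurs, not_or] at h
    simp only [Term.eval, hs h.1, ht h.2]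

theorem term_subst_of_not (i : ℕ) (r t : Term) (h : ¬ t.Occurs i) : t.subst i r = t := by
  induction t with
  | var k =>
    have hk : k ≠ i := fun e => h e.symm
    simp [Term.subst, hk]
  | zero => rfl
  | one => rfl
  | add s t hs ht =>
    simp only [Term.Occurs, not_or] at h
    simp only [Term.subst, hs h.1, ht h.2]
  | mul s t hs ht =>
    simp only [Term.Occurs, not_or] at h
    simp only [Term.subst, hs h.1, ht h.2]

theorem subst_of_not (i : ℕ) (r : Term) (φ : Form) (h : ¬ φ.FreeNum i) : φ.subst i r = φ := by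
  induction φ with
  | eq s t =>
    simp only [Form.FreeNum, not_or] at h
    simp only [Form.subst, term_subst_of_not i r _ h.1, term_subst_of_not i r _ h.2]
  | lt s t =>
    simp only [Form.FreeNum, not_or] at h
    simp only [Form.subst, term_subst_of_not i r _ h.1, term_subst_of_not i r _ h.2]
  | mem s X =>
    simp only [Form.FreeNum] at h
    simp only [Form.subst, term_subst_of_not i r _ h]
  | neg φ hφ =>
    simp only [Form.FreeNum] at h
    simp only [Form.subst, hφ h]
  | and φ ψ hφ hψ =>
    simp only [Form.FreeNum, not_or] at h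
    simp only [Form.subst, hφ h.1, hψ h.2]
  | or φ ψ hφ hψ =>
    simp only [Form.FreeNum, not_or] at h
    simp only [Form.subst, hφ h.1, hψ h.2]
  | imp φ ψ hφ hψ =>
    simp only [Form.FreeNum, not_or] at h
    simp only [Form.subst, hφ h.1, hψ h.2]
  | all j φ hφ =>
    by_cases hj : j = i
    · simp only [Form.subst, if_pos hj]
    · have h' : ¬ φ.FreeNum i := fun hf => h ⟨fun e => hj e.symm, hf⟩
      simp only [Form.subst, if_neg hj, hφ h']
  | ex j φ hφ =>
    by_cases hj : j = i
    · simp only [Form.subst, if_pos hj]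
    · have h' : ¬ φ.FreeNum i := fun hf => h ⟨fun e => hj e.symm, hf⟩
      simp only [Form.subst, if_neg hj, hφ h']
  | allSet X φ hφ =>
    simp only [Form.FreeNum] at h
    simp only [Form.subst, hφ h]
  | exSet X φ hφ =>
    simp only [Form.FreeNum] at h
    simp only [Form.subst, hφ h]

theorem body (hC : StmtDCoi) (𝔐 : Model) (i j : ℕ) (t : Term) (φ : Form) (hji : j ≠ i)
    (ih : φ.FreeFor i t → ∀ (v : ℕ → 𝔐.M) (V : ℕ → Set 𝔐.M),
      (φ.subst i t).Sat 𝔐 v V ↔ φ.Sat 𝔐 (Function.update v i (t.eval 𝔐 v)) V)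
    (hf : ¬ φ.FreeNum i ∨ (¬ t.Occurs j ∧ φ.FreeFor i t)) (v : ℕ → 𝔐.M) (V : ℕ → Set 𝔐.M)
    (a : 𝔐.M) :
    (φ.subst i t).Sat 𝔐 (Function.update v j a) V ↔
      φ.Sat 𝔐 (Function.update (Function.update v i (t.eval 𝔐 v)) j a) V := by
  rcases hf with hf | ⟨h1, h2⟩
  · rw [subst_of_not i t φ hf]
    refine hC 𝔐 φ _ _ _ _ ?_ fun X _ => rfl
    intro m hm
    have hmi : m ≠ i := fun e => hf (e ▸ hm)
    by_cases hmj : m = j
    · subst hmj
      simp
    · simp [hmj, hmi]
  · rw [ih h2, eval_update 𝔐 v j a t h1, Function.update_comm hji]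

end SUB

theorem t_DSub (hC : StmtDCoi) : StmtDSub := by
  intro 𝔐 i t φ
  induction φ with
  | eq s r =>
    intro _ v V
    simp only [Form.subst, Form.Sat, SUB.eval_subst]
  | lt s r =>
    intro _ v V
    simp only [Form.subst, Form.Sat, SUB.eval_subst]
  | mem s X =>
    intro _ v V
    simp only [Form.subst, Form.Sat, SUB.eval_subst]
  | neg φ hφ =>
    intro hf v V
    simp only [Form.subst, Form.Sat, hφ hf]
  | and φ ψ hφ hψ =>
    intro hf v V
    simp only [Form.subst, Form.Sat, hφ hf.1, hψ hf.2]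
  | or φ ψ hφ hψ =>
    intro hf v V
    simp only [Form.subst, Form.Sat, hφ hf.1, hψ hf.2]
  | imp φ ψ hφ hψ =>
    intro hf v V
    simp only [Form.subst, Form.Sat, hφ hf.1, hψ hf.2]
  | all j φ hφ =>
    intro hf v V
    by_cases hj : j = i
    · subst hj
      simp only [Form.subst, if_true, Form.Sat, Function.update_idem]
    · simp only [Form.subst, if_neg hj, Form.Sat]
      exact forall_congr' fun a => SUB.body hC 𝔐 i j t φ hj hφ (hf.resolve_left hj) v V a
  | ex j φ hφ =>
    intro hf v V
    by_cases hj : j = i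
    · subst hj
      simp only [Form.subst, if_true, Form.Sat, Function.update_idem]
    · simp only [Form.subst, if_neg hj, Form.Sat]
      exact exists_congr fun a => SUB.body hC 𝔐 i j t φ hj hφ (hf.resolve_left hj) v V a
  | allSet X φ hφ =>
    intro hf v V
    simp only [Form.subst, Form.Sat, hφ hf]
  | exSet X φ hφ =>
    intro hf v V
    simp only [Form.subst, Form.Sat, hφ hf]

end Pool.Agent.OVW
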