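import Pool.Agent.OVW.D.Stmts

/-!
# DSUS: the substitution lemma for set variables
-/

namespace Pool.Agent.OVW

namespace SUS

/-- Nothing is substituted if the variable is not free. -/
theorem substSet_of_not_free (φ : Form) (X Y : ℕ) (h : ¬ φ.FreeSet X) : φ.substSet X Y = φ := by
  induction φ with
  | eq s t => rfl
  | lt s t => rfl
  | mem s Z =>
    have hZ : ¬ Z = X := fun e => h e.symm
    simp only [Form.substSet, if_neg hZ]
  | neg φ ih => simp only [Form.substSet, ih h]
  | and φ ψ ih1 ih2 =>
    have h' := not_or.1 h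
    simp only [Form.substSet, ih1 h'.1, ih2 h'.2]
  | or φ ψ ih1 ih2 =>
    have h' := not_or.1 h
    simp only [Form.substSet, ih1 h'.1, ih2 h'.2]
  | imp φ ψ ih1 ih2 =>
    have h' := not_or.1 h
    simp only [Form.substSet, ih1 h'.1, ih2 h'.2]
  | all i φ ih => simp only [Form.substSet, ih h]
  | ex i φ ih => simp only [Form.substSet, ih h]
  | allSet Z φ ih =>
    by_cases hZ : Z = X
    · simp only [Form.substSet, if_pos hZ]
    · have h' : ¬ φ.FreeSet X := fun h1 => h ⟨fun e => hZ e.symm, h1⟩
      simp only [Form.substSet, if_neg hZ, ih h']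
  | exSet Z φ ih =>
    by_cases hZ : Z = X
    · simp only [Form.substSet, if_pos hZ]
    · have h' : ¬ φ.FreeSet X := fun h1 => h ⟨fun e => hZ e.symm, h1⟩
      simp only [Form.substSet, if_neg hZ, ih h']

/-- The step for a set quantifier. -/
theorem step (hC : StmtDCoi) (𝔐 : Model) (X Y Z : ℕ) (φ : Form)
    (ih : φ.FreeForSet X Y → ∀ (v : ℕ → 𝔐.M) (V : ℕ → Set 𝔐.M),
      (φ.substSet X Y).Sat 𝔐 v V ↔ φ.Sat 𝔐 v (Function.update V X (V Y)))
    (hZ : Z ≠ X) (h : ¬ φ.FreeSet X ∨ (Z ≠ Y ∧ φ.FreeForSet X Y)) (v : ℕ → 𝔐.M)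
    (V : ℕ → Set 𝔐.M) (A : Set 𝔐.M) :
    (φ.substSet X Y).Sat 𝔐 v (Function.update V Z A) ↔
      φ.Sat 𝔐 v (Function.update (Function.update V X (V Y)) Z A) := by
  rcases h with h | ⟨hY, h⟩
  · rw [substSet_of_not_free φ X Y h]
    refine hC 𝔐 φ v v _ _ (fun _ _ => rfl) ?_
    intro U hU
    have hUX : U ≠ X := fun e => h (e ▸ hU)
    by_cases hUZ : U = Z
    · subst hUZ
      rw [Function.update_self, Function.update_self]
    · rw [Function.update_of_ne hUZ, Function.update_of_ne hUZ, Function.update_of_ne hUX]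
  · rw [ih h v (Function.update V Z A), Function.update_of_ne (Ne.symm hY),
      Function.update_comm hZ]

end SUS

theorem t_DSus (hC : StmtDCoi) : StmtDSus := by
  intro 𝔐 X Y φ
  induction φ with
  | eq s t => intro _ v V; exact Iff.rfl
  | lt s t => intro _ v V; exact Iff.rfl
  | mem s Z =>
    intro _ v V
    by_cases hZ : Z = X
    · subst hZ
      simp only [Form.substSet, Form.Sat, if_true, Function.update_self]
    · simp only [Form.substSet, Form.Sat, if_neg hZ, Function.update_of_ne hZ]
  | neg φ ih =>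
    intro h v V
    exact not_congr (ih h v V)
  | and φ ψ ih1 ih2 =>
    intro h v V
    exact and_congr (ih1 h.1 v V) (ih2 h.2 v V)
  | or φ ψ ih1 ih2 =>
    intro h v V
    exact or_congr (ih1 h.1 v V) (ih2 h.2 v V)
  | imp φ ψ ih1 ih2 =>
    intro h v V
    exact imp_congr (ih1 h.1 v V) (ih2 h.2 v V)
  | all i φ ih =>
    intro h v V
    exact forall_congr' fun a => ih h (Function.update v i a) V
  | ex i φ ih =>
    intro h v V
    exact exists_congr fun a => ih h (Function.update v i a) V
  | allSet Z φ ih =>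
    intro h v V
    by_cases hZ : Z = X
    · subst hZ
      simp only [Form.substSet, if_true, Form.Sat, Function.update_idem]
    · have h' := Or.resolve_left h hZ
      simp only [Form.substSet, if_neg hZ, Form.Sat]
      exact forall_congr' fun A => imp_congr Iff.rfl (SUS.step hC 𝔐 X Y Z φ ih hZ h' v V A)
  | exSet Z φ ih =>
    intro h v V
    by_cases hZ : Z = X
    · subst hZ
      simp only [Form.substSet, if_true, Form.Sat, Function.update_idem]
    · have h' := Or.resolve_left h hZ
      simp only [Form.substSet, if_neg hZ, Form.Sat]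
      exact exists_congr fun A => and_congr Iff.rfl (SUS.step hC 𝔐 X Y Z φ ih hZ h' v V A)

end Pool.Agent.OVW
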