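import Pool.Agent.OVW.D.Stmts

/-!
# Block D: a fresh number variable
-/

namespace Pool.Agent.OVW

namespace SYN

theorem term_occurs_lt {t : Term} {i : ℕ} (h : t.Occurs i) : i < t.bd := by
  induction t with
  | var k =>
    have h' : i = k := h
    simp only [Term.bd]
    omega
  | zero => exact h.elim
  | one => exact h.elim
  | add s t ihs iht =>
    simp only [Term.bd]
    rcases h with h | h
    · exact lt_of_lt_of_le (ihs h) (le_max_left _ _)
    · exact lt_of_lt_of_le (iht h) (le_max_right _ _)
  | mul s t ihs iht =>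
    simp only [Term.bd]
    rcases h with h | h
    · exact lt_of_lt_of_le (ihs h) (le_max_left _ _)
    · exact lt_of_lt_of_le (iht h) (le_max_right _ _)

theorem term_subst_fresh (t : Term) (j : ℕ) (r : Term) (h : t.bd ≤ j) : t.subst j r = t := by
  induction t with
  | var k =>
    simp only [Term.bd] at h
    have : k ≠ j := by omega
    simp only [Term.subst, if_neg this]
  | zero => rfl
  | one => rfl
  | add s t ihs iht =>
    simp only [Term.bd, max_le_iff] at h
    simp only [Term.subst, ihs h.1, iht h.2]
  | mul s t ihs iht =>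
    simp only [Term.bd, max_le_iff] at h
    simp only [Term.subst, ihs h.1, iht h.2]

theorem term_back (t : Term) (i j : ℕ) (h : t.bd ≤ j) :
    (t.subst i (.var j)).subst j (.var i) = t := by
  induction t with
  | var k =>
    simp only [Term.bd] at h
    have hk : k ≠ j := by omega
    by_cases hki : k = i
    · simp only [Term.subst, if_pos hki, if_true, hki]
    · simp only [Term.subst, if_neg hki, if_neg hk]
  | zero => rfl
  | one => rfl
  | add s t ihs iht =>
    simp only [Term.bd, max_le_iff] at h
    simp only [Term.subst, ihs h.1, iht h.2]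
  | mul s t ihs iht =>
    simp only [Term.bd, max_le_iff] at h
    simp only [Term.subst, ihs h.1, iht h.2]

theorem term_gone (t : Term) (i j : ℕ) (h : i < j) : ¬ (t.subst i (.var j)).Occurs i := by
  induction t with
  | var k =>
    by_cases hki : k = i
    · simp only [Term.subst, if_pos hki, Term.Occurs]
      omega
    · simp only [Term.subst, if_neg hki, Term.Occurs]
      omega
  | zero => exact fun h => h
  | one => exact fun h => h
  | add s t ihs iht =>
    simp only [Term.subst, Term.Occurs, not_or]
    exact ⟨ihs, iht⟩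
  | mul s t ihs iht =>
    simp only [Term.subst, Term.Occurs, not_or]
    exact ⟨ihs, iht⟩

theorem free_lt {φ : Form} {i : ℕ} (h : φ.FreeNum i) : i < φ.bd := by
  induction φ with
  | eq s t =>
    simp only [Form.bd, lt_max_iff]
    exact h.imp term_occurs_lt term_occurs_lt
  | lt s t =>
    simp only [Form.bd, lt_max_iff]
    exact h.imp term_occurs_lt term_occurs_lt
  | mem s X =>
    simp only [Form.bd, lt_max_iff]
    exact Or.inl (term_occurs_lt h)
  | neg φ ih => exact ih h
  | and φ ψ ih ih' =>
    simp only [Form.bd, lt_max_iff]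
    exact h.imp ih ih'
  | or φ ψ ih ih' =>
    simp only [Form.bd, lt_max_iff]
    exact h.imp ih ih'
  | imp φ ψ ih ih' =>
    simp only [Form.bd, lt_max_iff]
    exact h.imp ih ih'
  | all k φ ih =>
    simp only [Form.bd, lt_max_iff]
    exact Or.inr (ih h.2)
  | ex k φ ih =>
    simp only [Form.bd, lt_max_iff]
    exact Or.inr (ih h.2)
  | allSet X φ ih =>
    simp only [Form.bd, lt_max_iff]
    exact Or.inr (ih h)
  | exSet X φ ih =>
    simp only [Form.bd, lt_max_iff]
    exact Or.inr (ih h)

theorem not_free {φ : Form} {j : ℕ} (h : φ.bd ≤ j) : ¬ φ.FreeNum j :=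
  fun hf => absurd (free_lt hf) (not_lt.2 h)

theorem subst_fresh (φ : Form) (j : ℕ) (r : Term) (h : φ.bd ≤ j) : φ.subst j r = φ := by
  induction φ with
  | eq s t =>
    simp only [Form.bd, max_le_iff] at h
    simp only [Form.subst, term_subst_fresh _ _ _ h.1, term_subst_fresh _ _ _ h.2]
  | lt s t =>
    simp only [Form.bd, max_le_iff] at h
    simp only [Form.subst, term_subst_fresh _ _ _ h.1, term_subst_fresh _ _ _ h.2]
  | mem s X =>
    simp only [Form.bd, max_le_iff] at h
    simp only [Form.subst, term_subst_fresh _ _ _ h.1]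
  | neg φ ih =>
    simp only [Form.bd] at h
    simp only [Form.subst, ih h]
  | and φ ψ ih ih' =>
    simp only [Form.bd, max_le_iff] at h
    simp only [Form.subst, ih h.1, ih' h.2]
  | or φ ψ ih ih' =>
    simp only [Form.bd, max_le_iff] at h
    simp only [Form.subst, ih h.1, ih' h.2]
  | imp φ ψ ih ih' =>
    simp only [Form.bd, max_le_iff] at h
    simp only [Form.subst, ih h.1, ih' h.2]
  | all k φ ih =>
    simp only [Form.bd, max_le_iff] at h
    simp only [Form.subst, ih h.2, ite_self]
  | ex k φ ih =>
    simp only [Form.bd, max_le_iff] at h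
    simp only [Form.subst, ih h.2, ite_self]
  | allSet X φ ih =>
    simp only [Form.bd, max_le_iff] at h
    simp only [Form.subst, ih h.2]
  | exSet X φ ih =>
    simp only [Form.bd, max_le_iff] at h
    simp only [Form.subst, ih h.2]

theorem freeFor (φ : Form) (i j : ℕ) (h : φ.bd ≤ j) : φ.FreeFor i (.var j) := by
  induction φ with
  | eq s t => trivial
  | lt s t => trivial
  | mem s X => trivial
  | neg φ ih => exact ih h
  | and φ ψ ih ih' =>
    simp only [Form.bd, max_le_iff] at h
    exact ⟨ih h.1, ih' h.2⟩
  | or φ ψ ih ih' =>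
    simp only [Form.bd, max_le_iff] at h
    exact ⟨ih h.1, ih' h.2⟩
  | imp φ ψ ih ih' =>
    simp only [Form.bd, max_le_iff] at h
    exact ⟨ih h.1, ih' h.2⟩
  | all k φ ih =>
    simp only [Form.bd, max_le_iff] at h
    refine Or.inr (Or.inr ⟨?_, ih h.2⟩)
    simp only [Term.Occurs]
    omega
  | ex k φ ih =>
    simp only [Form.bd, max_le_iff] at h
    refine Or.inr (Or.inr ⟨?_, ih h.2⟩)
    simp only [Term.Occurs]
    omega
  | allSet X φ ih =>
    simp only [Form.bd, max_le_iff] at h
    exact ih h.2
  | exSet X φ ih =>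
    simp only [Form.bd, max_le_iff] at h
    exact ih h.2

theorem freeForBack (φ : Form) (i j : ℕ) (h : φ.bd ≤ j) :
    (φ.subst i (.var j)).FreeFor j (.var i) := by
  induction φ with
  | eq s t => trivial
  | lt s t => trivial
  | mem s X => trivial
  | neg φ ih => exact ih h
  | and φ ψ ih ih' =>
    simp only [Form.bd, max_le_iff] at h
    exact ⟨ih h.1, ih' h.2⟩
  | or φ ψ ih ih' =>
    simp only [Form.bd, max_le_iff] at h
    exact ⟨ih h.1, ih' h.2⟩
  | imp φ ψ ih ih' =>
    simp only [Form.bd, max_le_iff] at h
    exact ⟨ih h.1, ih' h.2⟩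
  | all k φ ih =>
    simp only [Form.bd, max_le_iff] at h
    by_cases hk : k = i
    · simp only [Form.subst, if_pos hk]
      exact Or.inr (Or.inl (not_free h.2))
    · simp only [Form.subst, if_neg hk]
      exact Or.inr (Or.inr ⟨hk, ih h.2⟩)
  | ex k φ ih =>
    simp only [Form.bd, max_le_iff] at h
    by_cases hk : k = i
    · simp only [Form.subst, if_pos hk]
      exact Or.inr (Or.inl (not_free h.2))
    · simp only [Form.subst, if_neg hk]
      exact Or.inr (Or.inr ⟨hk, ih h.2⟩)
  | allSet X φ ih =>
    simp only [Form.bd, max_le_iff] at h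
    exact ih h.2
  | exSet X φ ih =>
    simp only [Form.bd, max_le_iff] at h
    exact ih h.2

theorem back (φ : Form) (i j : ℕ) (h : φ.bd ≤ j) :
    (φ.subst i (.var j)).subst j (.var i) = φ := by
  induction φ with
  | eq s t =>
    simp only [Form.bd, max_le_iff] at h
    simp only [Form.subst, term_back _ _ _ h.1, term_back _ _ _ h.2]
  | lt s t =>
    simp only [Form.bd, max_le_iff] at h
    simp only [Form.subst, term_back _ _ _ h.1, term_back _ _ _ h.2]
  | mem s X =>
    simp only [Form.bd, max_le_iff] at h
    simp only [Form.subst, term_back _ _ _ h.1]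
  | neg φ ih =>
    simp only [Form.bd] at h
    simp only [Form.subst, ih h]
  | and φ ψ ih ih' =>
    simp only [Form.bd, max_le_iff] at h
    simp only [Form.subst, ih h.1, ih' h.2]
  | or φ ψ ih ih' =>
    simp only [Form.bd, max_le_iff] at h
    simp only [Form.subst, ih h.1, ih' h.2]
  | imp φ ψ ih ih' =>
    simp only [Form.bd, max_le_iff] at h
    simp only [Form.subst, ih h.1, ih' h.2]
  | all k φ ih =>
    simp only [Form.bd, max_le_iff] at h
    have hkj : k ≠ j := by omega
    by_cases hk : k = i
    · simp only [Form.subst, if_pos hk, if_neg hkj, subst_fresh φ j _ h.2]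
    · simp only [Form.subst, if_neg hk, if_neg hkj, ih h.2]
  | ex k φ ih =>
    simp only [Form.bd, max_le_iff] at h
    have hkj : k ≠ j := by omega
    by_cases hk : k = i
    · simp only [Form.subst, if_pos hk, if_neg hkj, subst_fresh φ j _ h.2]
    · simp only [Form.subst, if_neg hk, if_neg hkj, ih h.2]
  | allSet X φ ih =>
    simp only [Form.bd, max_le_iff] at h
    simp only [Form.subst, ih h.2]
  | exSet X φ ih =>
    simp only [Form.bd, max_le_iff] at h
    simp only [Form.subst, ih h.2]

theorem gone (φ : Form) (i j : ℕ) (h : i < j) : ¬ (φ.subst i (.var j)).FreeNum i := by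
  induction φ with
  | eq s t =>
    simp only [Form.subst, Form.FreeNum, not_or]
    exact ⟨term_gone _ _ _ h, term_gone _ _ _ h⟩
  | lt s t =>
    simp only [Form.subst, Form.FreeNum, not_or]
    exact ⟨term_gone _ _ _ h, term_gone _ _ _ h⟩
  | mem s X => exact term_gone _ _ _ h
  | neg φ ih => exact ih
  | and φ ψ ih ih' =>
    simp only [Form.subst, Form.FreeNum, not_or]
    exact ⟨ih, ih'⟩
  | or φ ψ ih ih' =>
    simp only [Form.subst, Form.FreeNum, not_or]
    exact ⟨ih, ih'⟩
  | imp φ ψ ih ih' =>
    simp only [Form.subst, Form.FreeNum, not_or]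
    exact ⟨ih, ih'⟩
  | all k φ ih =>
    by_cases hk : k = i
    · simp only [Form.subst, if_pos hk]
      exact fun hf => hf.1 hk.symm
    · simp only [Form.subst, if_neg hk]
      exact fun hf => ih hf.2
  | ex k φ ih =>
    by_cases hk : k = i
    · simp only [Form.subst, if_pos hk]
      exact fun hf => hf.1 hk.symm
    · simp only [Form.subst, if_neg hk]
      exact fun hf => ih hf.2
  | allSet X φ ih => exact ih
  | exSet X φ ih => exact ih

end SYN

open SYN in
theorem t_DSyn : StmtDSyn := by
  intro φ i j h hij
  exact ⟨freeFor φ i j h, freeForBack φ i j h, back φ i j h, gone φ i j hij, not_free h⟩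

end Pool.Agent.OVW
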