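import Pool.Agent.OVW.D.Stmts

/-!
# Block D: renaming of a set variable to a fresh one
-/

namespace Pool.Agent.OVW

namespace SYS

theorem notFree (Y : ℕ) : ∀ φ : Form, φ.bd ≤ Y → ¬ φ.FreeSet Y := by
  intro φ
  induction φ with
  | eq s t => intro _ h; exact h
  | lt s t => intro _ h; exact h
  | mem s Z =>
    intro hb h
    simp only [Form.bd, max_le_iff] at hb
    simp only [Form.FreeSet] at h
    omega
  | neg φ ih => intro hb h; exact ih hb h
  | and φ ψ ih1 ih2 =>
    intro hb h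
    simp only [Form.bd, max_le_iff] at hb
    exact h.elim (ih1 hb.1) (ih2 hb.2)
  | or φ ψ ih1 ih2 =>
    intro hb h
    simp only [Form.bd, max_le_iff] at hb
    exact h.elim (ih1 hb.1) (ih2 hb.2)
  | imp φ ψ ih1 ih2 =>
    intro hb h
    simp only [Form.bd, max_le_iff] at hb
    exact h.elim (ih1 hb.1) (ih2 hb.2)
  | all i φ ih =>
    intro hb h
    simp only [Form.bd, max_le_iff] at hb
    exact ih hb.2 h
  | ex i φ ih =>
    intro hb h
    simp only [Form.bd, max_le_iff] at hb
    exact ih hb.2 h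
  | allSet Z φ ih =>
    intro hb h
    simp only [Form.bd, max_le_iff] at hb
    exact ih hb.2 h.2
  | exSet Z φ ih =>
    intro hb h
    simp only [Form.bd, max_le_iff] at hb
    exact ih hb.2 h.2

theorem subst_fresh (X Y : ℕ) : ∀ φ : Form, φ.bd ≤ Y → φ.substSet Y X = φ := by
  intro φ
  induction φ with
  | eq s t => intro _; rfl
  | lt s t => intro _; rfl
  | mem s Z =>
    intro hb
    simp only [Form.bd, max_le_iff] at hb
    have : Z ≠ Y := by omega
    simp [Form.substSet, this]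
  | neg φ ih => intro hb; simp only [Form.bd] at hb; simp [Form.substSet, ih hb]
  | and φ ψ ih1 ih2 =>
    intro hb
    simp only [Form.bd, max_le_iff] at hb
    simp [Form.substSet, ih1 hb.1, ih2 hb.2]
  | or φ ψ ih1 ih2 =>
    intro hb
    simp only [Form.bd, max_le_iff] at hb
    simp [Form.substSet, ih1 hb.1, ih2 hb.2]
  | imp φ ψ ih1 ih2 =>
    intro hb
    simp only [Form.bd, max_le_iff] at hb
    simp [Form.substSet, ih1 hb.1, ih2 hb.2]
  | all i φ ih =>
    intro hb
    simp only [Form.bd, max_le_iff] at hb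
    simp [Form.substSet, ih hb.2]
  | ex i φ ih =>
    intro hb
    simp only [Form.bd, max_le_iff] at hb
    simp [Form.substSet, ih hb.2]
  | allSet Z φ ih =>
    intro hb
    simp only [Form.bd, max_le_iff] at hb
    simp [Form.substSet, ih hb.2]
  | exSet Z φ ih =>
    intro hb
    simp only [Form.bd, max_le_iff] at hb
    simp [Form.substSet, ih hb.2]

theorem main (X Y : ℕ) (hXY : X < Y) : ∀ φ : Form, φ.bd ≤ Y →
    φ.FreeForSet X Y ∧ (φ.substSet X Y).FreeForSet Y X ∧
      (φ.substSet X Y).substSet Y X = φ ∧ ¬ (φ.substSet X Y).FreeSet X := by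
  intro φ
  induction φ with
  | eq s t => intro _; exact ⟨trivial, trivial, rfl, fun h => h⟩
  | lt s t => intro _; exact ⟨trivial, trivial, rfl, fun h => h⟩
  | mem s Z =>
    intro hb
    simp only [Form.bd, max_le_iff] at hb
    have h1 : Z ≠ Y := by omega
    have h2 : X ≠ Y := by omega
    by_cases h : Z = X
    · subst h
      simp [Form.substSet, Form.FreeForSet, Form.FreeSet, h2]
    · have h3 : ¬ X = Z := fun h' => h h'.symm
      simp [Form.substSet, Form.FreeForSet, Form.FreeSet, h1, h, h3]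
  | neg φ ih =>
    intro hb
    simp only [Form.bd] at hb
    obtain ⟨a, b, c, d⟩ := ih hb
    exact ⟨a, b, congrArg Form.neg c, d⟩
  | and φ ψ ih1 ih2 =>
    intro hb
    simp only [Form.bd, max_le_iff] at hb
    obtain ⟨a, b, c, d⟩ := ih1 hb.1
    obtain ⟨a', b', c', d'⟩ := ih2 hb.2
    exact ⟨⟨a, a'⟩, ⟨b, b'⟩, congrArg₂ Form.and c c', fun h => h.elim d d'⟩
  | or φ ψ ih1 ih2 =>
    intro hb
    simp only [Form.bd, max_le_iff] at hb
    obtain ⟨a, b, c, d⟩ := ih1 hb.1
    obtain ⟨a', b', c', d'⟩ := ih2 hb.2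
    exact ⟨⟨a, a'⟩, ⟨b, b'⟩, congrArg₂ Form.or c c', fun h => h.elim d d'⟩
  | imp φ ψ ih1 ih2 =>
    intro hb
    simp only [Form.bd, max_le_iff] at hb
    obtain ⟨a, b, c, d⟩ := ih1 hb.1
    obtain ⟨a', b', c', d'⟩ := ih2 hb.2
    exact ⟨⟨a, a'⟩, ⟨b, b'⟩, congrArg₂ Form.imp c c', fun h => h.elim d d'⟩
  | all i φ ih =>
    intro hb
    simp only [Form.bd, max_le_iff] at hb
    obtain ⟨a, b, c, d⟩ := ih hb.2
    exact ⟨a, b, congrArg (Form.all i) c, d⟩
  | ex i φ ih =>
    intro hb
    simp only [Form.bd, max_le_iff] at hb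
    obtain ⟨a, b, c, d⟩ := ih hb.2
    exact ⟨a, b, congrArg (Form.ex i) c, d⟩
  | allSet Z φ ih =>
    intro hb
    simp only [Form.bd, max_le_iff] at hb
    have h1 : Z ≠ Y := by omega
    obtain ⟨a, b, c, d⟩ := ih hb.2
    by_cases h : Z = X
    · subst h
      have e : (Form.allSet Z φ).substSet Z Y = Form.allSet Z φ := by
        simp [Form.substSet]
      rw [e]
      refine ⟨Or.inl rfl, Or.inr (Or.inl (notFree Y φ hb.2)), ?_, fun h => h.1 rfl⟩
      simp [Form.substSet, subst_fresh Z Y φ hb.2]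
    · have e : (Form.allSet Z φ).substSet X Y = Form.allSet Z (φ.substSet X Y) := by
        simp [Form.substSet, h]
      rw [e]
      refine ⟨Or.inr (Or.inr ⟨h1, a⟩), Or.inr (Or.inr ⟨h, b⟩), ?_, fun h => d h.2⟩
      simp [Form.substSet, h1, c]
  | exSet Z φ ih =>
    intro hb
    simp only [Form.bd, max_le_iff] at hb
    have h1 : Z ≠ Y := by omega
    obtain ⟨a, b, c, d⟩ := ih hb.2
    by_cases h : Z = X
    · subst h
      have e : (Form.exSet Z φ).substSet Z Y = Form.exSet Z φ := by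
        simp [Form.substSet]
      rw [e]
      refine ⟨Or.inl rfl, Or.inr (Or.inl (notFree Y φ hb.2)), ?_, fun h => h.1 rfl⟩
      simp [Form.substSet, subst_fresh Z Y φ hb.2]
    · have e : (Form.exSet Z φ).substSet X Y = Form.exSet Z (φ.substSet X Y) := by
        simp [Form.substSet, h]
      rw [e]
      refine ⟨Or.inr (Or.inr ⟨h1, a⟩), Or.inr (Or.inr ⟨h, b⟩), ?_, fun h => d h.2⟩
      simp [Form.substSet, h1, c]

end SYS

theorem t_DSys : StmtDSys := fun φ X Y hb hXY => by
  obtain ⟨a, b, c, d⟩ := SYS.main X Y hXY φ hb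
  exact ⟨a, b, c, d, SYS.notFree Y φ hb⟩

end Pool.Agent.OVW
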