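import Pool.Agent.OVW.D.Stmts

/-! # Block D: the model of a complete Henkin set -/

namespace Pool.Agent.OVW.TRU

open Pool.Agent.OVW

/-! ## Trivial substitutions -/

theorem term_subst_self (i : ℕ) (s : Term) : s.subst i (.var i) = s := by
  induction s with
  | var j =>
    simp only [Term.subst]
    split_ifs with h
    · rw [h]
    · rfl
  | zero => rfl
  | one => rfl
  | add s t hs ht => simp only [Term.subst, hs, ht]
  | mul s t hs ht => simp only [Term.subst, hs, ht]

theorem subst_self (i : ℕ) (φ : Form) : φ.subst i (.var i) = φ := by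
  induction φ with
  | eq s t => simp only [Form.subst, term_subst_self]
  | lt s t => simp only [Form.subst, term_subst_self]
  | mem s X => simp only [Form.subst, term_subst_self]
  | neg φ h => simp only [Form.subst, h]
  | and φ ψ h1 h2 => simp only [Form.subst, h1, h2]
  | or φ ψ h1 h2 => simp only [Form.subst, h1, h2]
  | imp φ ψ h1 h2 => simp only [Form.subst, h1, h2]
  | all j φ h => simp only [Form.subst, h, ite_self]
  | ex j φ h => simp only [Form.subst, h, ite_self]
  | allSet X φ h => simp only [Form.subst, h]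
  | exSet X φ h => simp only [Form.subst, h]

theorem freeFor_self (i : ℕ) (φ : Form) : φ.FreeFor i (.var i) := by
  induction φ with
  | eq s t => trivial
  | lt s t => trivial
  | mem s X => trivial
  | neg φ h => exact h
  | and φ ψ h1 h2 => exact ⟨h1, h2⟩
  | or φ ψ h1 h2 => exact ⟨h1, h2⟩
  | imp φ ψ h1 h2 => exact ⟨h1, h2⟩
  | all j φ h =>
    by_cases hj : j = i
    · exact Or.inl hj
    · exact Or.inr (Or.inr ⟨hj, h⟩)
  | ex j φ h =>
    by_cases hj : j = i
    · exact Or.inl hj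
    · exact Or.inr (Or.inr ⟨hj, h⟩)
  | allSet X φ h => exact h
  | exSet X φ h => exact h

theorem substSet_self (X : ℕ) (φ : Form) : φ.substSet X X = φ := by
  induction φ with
  | eq s t => rfl
  | lt s t => rfl
  | mem s Z =>
    simp only [Form.substSet]
    split_ifs with h
    · rw [h]
    · rfl
  | neg φ h => simp only [Form.substSet, h]
  | and φ ψ h1 h2 => simp only [Form.substSet, h1, h2]
  | or φ ψ h1 h2 => simp only [Form.substSet, h1, h2]
  | imp φ ψ h1 h2 => simp only [Form.substSet, h1, h2]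
  | all j φ h => simp only [Form.substSet, h]
  | ex j φ h => simp only [Form.substSet, h]
  | allSet Z φ h => simp only [Form.substSet, h, ite_self]
  | exSet Z φ h => simp only [Form.substSet, h, ite_self]

theorem freeForSet_self (X : ℕ) (φ : Form) : φ.FreeForSet X X := by
  induction φ with
  | eq s t => trivial
  | lt s t => trivial
  | mem s X => trivial
  | neg φ h => exact h
  | and φ ψ h1 h2 => exact ⟨h1, h2⟩
  | or φ ψ h1 h2 => exact ⟨h1, h2⟩
  | imp φ ψ h1 h2 => exact ⟨h1, h2⟩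
  | all j φ h => exact h
  | ex j φ h => exact h
  | allSet Z φ h =>
    by_cases hj : Z = X
    · exact Or.inl hj
    · exact Or.inr (Or.inr ⟨hj, h⟩)
  | exSet Z φ h =>
    by_cases hj : Z = X
    · exact Or.inl hj
    · exact Or.inr (Or.inr ⟨hj, h⟩)

theorem term_subst_of_bd (i : ℕ) (r s : Term) (h : s.bd ≤ i) : s.subst i r = s := by
  induction s with
  | var j =>
    simp only [Term.bd] at h
    simp only [Term.subst]
    rw [if_neg (by omega)]
  | zero => rfl
  | one => rfl
  | add s t hs ht =>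
    simp only [Term.bd, max_le_iff] at h
    simp only [Term.subst, hs h.1, ht h.2]
  | mul s t hs ht =>
    simp only [Term.bd, max_le_iff] at h
    simp only [Term.subst, hs h.1, ht h.2]

/-- the number of connectives and quantifiers -/
def size : Form → ℕ
  | .eq _ _ => 0
  | .lt _ _ => 0
  | .mem _ _ => 0
  | .neg φ => size φ + 1
  | .and φ ψ => size φ + size ψ + 1
  | .or φ ψ => size φ + size ψ + 1
  | .imp φ ψ => size φ + size ψ + 1
  | .all _ φ => size φ + 1
  | .ex _ φ => size φ + 1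
  | .allSet _ φ => size φ + 1
  | .exSet _ φ => size φ + 1

theorem size_subst (i : ℕ) (r : Term) (φ : Form) : size (φ.subst i r) = size φ := by
  induction φ with
  | eq s t => rfl
  | lt s t => rfl
  | mem s X => rfl
  | neg φ h => simp only [Form.subst, size, h]
  | and φ ψ h1 h2 => simp only [Form.subst, size, h1, h2]
  | or φ ψ h1 h2 => simp only [Form.subst, size, h1, h2]
  | imp φ ψ h1 h2 => simp only [Form.subst, size, h1, h2]
  | all j φ h =>
    simp only [Form.subst]
    split_ifs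
    · rfl
    · simp only [size, h]
  | ex j φ h =>
    simp only [Form.subst]
    split_ifs
    · rfl
    · simp only [size, h]
  | allSet X φ h => simp only [Form.subst, size, h]
  | exSet X φ h => simp only [Form.subst, size, h]

theorem size_substSet (X Y : ℕ) (φ : Form) : size (φ.substSet X Y) = size φ := by
  induction φ with
  | eq s t => rfl
  | lt s t => rfl
  | mem s X => rfl
  | neg φ h => simp only [Form.substSet, size, h]
  | and φ ψ h1 h2 => simp only [Form.substSet, size, h1, h2]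
  | or φ ψ h1 h2 => simp only [Form.substSet, size, h1, h2]
  | imp φ ψ h1 h2 => simp only [Form.substSet, size, h1, h2]
  | all j φ h => simp only [Form.substSet, size, h]
  | ex j φ h => simp only [Form.substSet, size, h]
  | allSet Z φ h =>
    simp only [Form.substSet]
    split_ifs
    · rfl
    · simp only [size, h]
  | exSet Z φ h =>
    simp only [Form.substSet]
    split_ifs
    · rfl
    · simp only [size, h]

/-! ## Complete Henkin sets -/

section

variable {T Γ : Set Form} (hΓ : Henkin T Γ)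
include hΓ

theorem imp_iff (φ ψ : Form) : Form.imp φ ψ ∈ Γ ↔ (φ ∈ Γ → ψ ∈ Γ) := by
  constructor
  · exact fun h => hΓ.mp _ _ h
  · intro h
    by_cases hφ : φ ∈ Γ
    · refine hΓ.mp _ _ (hΓ.prf (.imp ψ (.imp φ ψ)) (.taut ?_)) (h hφ)
      intro e hn ha ho hi
      simp only [hi]
      tauto
    · refine hΓ.mp _ _ (hΓ.prf (.imp (.neg φ) (.imp φ ψ)) (.taut ?_)) ((hΓ.neg φ).2 hφ)
      intro e hn ha ho hi
      simp only [hi, hn]
      tauto

theorem and_iff (φ ψ : Form) : Form.and φ ψ ∈ Γ ↔ (φ ∈ Γ ∧ ψ ∈ Γ) := by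
  constructor
  · intro h
    constructor
    · refine hΓ.mp _ _ (hΓ.prf (.imp (.and φ ψ) φ) (.taut ?_)) h
      intro e hn ha ho hi
      simp only [hi, ha]
      tauto
    · refine hΓ.mp _ _ (hΓ.prf (.imp (.and φ ψ) ψ) (.taut ?_)) h
      intro e hn ha ho hi
      simp only [hi, ha]
      tauto
  · rintro ⟨h1, h2⟩
    refine hΓ.mp _ _ (hΓ.mp _ _ (hΓ.prf (.imp φ (.imp ψ (.and φ ψ))) (.taut ?_)) h1) h2
    intro e hn ha ho hi
    simp only [hi, ha]
    tauto

theorem or_iff (φ ψ : Form) : Form.or φ ψ ∈ Γ ↔ (φ ∈ Γ ∨ ψ ∈ Γ) := by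
  constructor
  · intro h
    by_contra hcon
    push Not at hcon
    have h1 := (hΓ.neg φ).2 hcon.1
    refine hcon.2 (hΓ.mp _ _ (hΓ.mp _ _ (hΓ.prf (.imp (.or φ ψ) (.imp (.neg φ) ψ))
      (.taut ?_)) h) h1)
    intro e hn ha ho hi
    simp only [hi, ho, hn]
    tauto
  · rintro (h | h)
    · refine hΓ.mp _ _ (hΓ.prf (.imp φ (.or φ ψ)) (.taut ?_)) h
      intro e hn ha ho hi
      simp only [hi, ho]
      tauto
    · refine hΓ.mp _ _ (hΓ.prf (.imp ψ (.or φ ψ)) (.taut ?_)) h
      intro e hn ha ho hi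
      simp only [hi, ho]
      tauto

theorem iff_iff (φ ψ : Form) : Form.iff φ ψ ∈ Γ ↔ (φ ∈ Γ ↔ ψ ∈ Γ) := by
  unfold Form.iff
  rw [and_iff hΓ, imp_iff hΓ, imp_iff hΓ]
  tauto

theorem all_elim {i : ℕ} {φ : Form} (h : Form.all i φ ∈ Γ) {t : Term} (ht : φ.FreeFor i t) :
    φ.subst i t ∈ Γ := hΓ.mp _ _ (hΓ.prf _ (.allElim ht)) h

theorem ex_intro {i : ℕ} {φ : Form} {t : Term} (ht : φ.FreeFor i t) (h : φ.subst i t ∈ Γ) :
    Form.ex i φ ∈ Γ := hΓ.mp _ _ (hΓ.prf _ (.exIntro ht)) h

theorem allSet_elim {X Y : ℕ} {φ : Form} (h : Form.allSet X φ ∈ Γ) (ht : φ.FreeForSet X Y) :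
    φ.substSet X Y ∈ Γ := hΓ.mp _ _ (hΓ.prf _ (.allSetElim ht)) h

theorem exSet_intro {X Y : ℕ} {φ : Form} (ht : φ.FreeForSet X Y) (h : φ.substSet X Y ∈ Γ) :
    Form.exSet X φ ∈ Γ := hΓ.mp _ _ (hΓ.prf _ (.exSetIntro ht)) h

theorem ex_of_not_all {i : ℕ} {φ : Form} (h : Form.all i φ ∉ Γ) : Form.ex i (.neg φ) ∈ Γ := by
  by_contra hcon
  have h1 : Prf T (.imp (.neg φ) (.ex i (.neg φ))) := by
    have := Prf.exIntro (T := T) (freeFor_self i (.neg φ))
    rwa [subst_self] at this
  have h2 : Prf T (.imp (.neg (.ex i (.neg φ))) φ) := by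
    refine .mp (.taut (φ := .imp (.imp (.neg φ) (.ex i (.neg φ)))
      (.imp (.neg (.ex i (.neg φ))) φ)) ?_) h1
    intro e hn ha ho hi
    simp only [hi, hn]
    tauto
  have h3 : Prf T (.imp (.neg (.ex i (.neg φ))) (.all i φ)) :=
    .allIntro (by simp [Form.FreeNum]) h2
  exact h (hΓ.mp _ _ (hΓ.prf _ h3) ((hΓ.neg _).2 hcon))

theorem exSet_of_not_all {X : ℕ} {φ : Form} (h : Form.allSet X φ ∉ Γ) :
    Form.exSet X (.neg φ) ∈ Γ := by
  by_contra hcon
  have h1 : Prf T (.imp (.neg φ) (.exSet X (.neg φ))) := by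
    have := Prf.exSetIntro (T := T) (freeForSet_self X (.neg φ))
    rwa [substSet_self] at this
  have h2 : Prf T (.imp (.neg (.exSet X (.neg φ))) φ) := by
    refine .mp (.taut (φ := .imp (.imp (.neg φ) (.exSet X (.neg φ)))
      (.imp (.neg (.exSet X (.neg φ))) φ)) ?_) h1
    intro e hn ha ho hi
    simp only [hi, hn]
    tauto
  have h3 : Prf T (.imp (.neg (.exSet X (.neg φ))) (.allSet X φ)) :=
    .allSetIntro (by simp [Form.FreeSet]) h2
  exact h (hΓ.mp _ _ (hΓ.prf _ h3) ((hΓ.neg _).2 hcon))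

/-! ## The model -/

/-- equality of terms -/
def sd : Setoid Term where
  r s t := Form.eq s t ∈ Γ
  iseqv := ⟨fun t => hΓ.prf _ (.eqRefl t),
    fun {s t} h => hΓ.mp _ _ (hΓ.prf _ (.eqSymm s t)) h,
    fun {s t u} h1 h2 => hΓ.mp _ _ (hΓ.mp _ _ (hΓ.prf _ (.eqTrans s t u)) h1) h2⟩

/-- the class of a term -/
def cls (t : Term) : Quotient (sd hΓ) := Quotient.mk (sd hΓ) t

theorem cls_eq {s t : Term} : cls hΓ s = cls hΓ t ↔ Form.eq s t ∈ Γ :=
  ⟨fun h => Quotient.exact h, fun h => Quotient.sound h⟩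

/-- the sets of the model -/
def A (Y : ℕ) : Set (Quotient (sd hΓ)) := {q | ∃ t, cls hΓ t = q ∧ Form.mem t Y ∈ Γ}

theorem mem_A {t : Term} {Y : ℕ} : cls hΓ t ∈ A hΓ Y ↔ Form.mem t Y ∈ Γ := by
  constructor
  · rintro ⟨s, hs, h⟩
    exact hΓ.mp _ _ (hΓ.mp _ _ (hΓ.prf _ (.eqMem s t Y)) ((cls_eq hΓ).1 hs)) h
  · exact fun h => ⟨t, rfl, h⟩

/-- the model -/
def model : Model where
  M := Quotient (sd hΓ)
  zero := cls hΓ .zero
  one := cls hΓ .one
  add := Quotient.map₂ Term.add (fun s t h u v h' =>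
    hΓ.mp _ _ (hΓ.mp _ _ (hΓ.prf _ (.eqAdd s t u v)) h) h')
  mul := Quotient.map₂ Term.mul (fun s t h u v h' =>
    hΓ.mp _ _ (hΓ.mp _ _ (hΓ.prf _ (.eqMul s t u v)) h) h')
  lt := fun p q => ∃ s t, cls hΓ s = p ∧ cls hΓ t = q ∧ Form.lt s t ∈ Γ
  S := Set.range (A hΓ)

/-- the assignment of the number variables -/
def va (i : ℕ) : (model hΓ).M := cls hΓ (.var i)

theorem lt_iff {s t : Term} : (model hΓ).lt (cls hΓ s) (cls hΓ t) ↔ Form.lt s t ∈ Γ := by
  constructor
  · rintro ⟨s', t', h1, h2, h⟩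
    exact hΓ.mp _ _ (hΓ.mp _ _ (hΓ.mp _ _ (hΓ.prf _ (.eqLt s' s t' t)) ((cls_eq hΓ).1 h1))
      ((cls_eq hΓ).1 h2)) h
  · exact fun h => ⟨s, t, rfl, rfl, h⟩

theorem eval_eq (t : Term) : t.eval (model hΓ) (va hΓ) = cls hΓ t := by
  induction t with
  | var i => rfl
  | zero => rfl
  | one => rfl
  | add s t hs ht => simp only [Term.eval, hs, ht]; rfl
  | mul s t hs ht => simp only [Term.eval, hs, ht]; rfl

theorem exists_var (t : Term) (k : ℕ) : ∃ j ≥ k, cls hΓ t = cls hΓ (.var j) := by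
  have h1 : Form.ex t.bd (.eq t (.var t.bd)) ∈ Γ := by
    refine ex_intro hΓ (t := t) trivial ?_
    simp only [Form.subst, Term.subst, if_true, term_subst_of_bd _ _ t le_rfl]
    exact hΓ.prf _ (.eqRefl t)
  obtain ⟨j, hj, h2⟩ := hΓ.ex _ _ h1 k
  refine ⟨j, hj, (cls_eq hΓ).2 ?_⟩
  simpa only [Form.subst, Term.subst, if_true, term_subst_of_bd _ _ t le_rfl] using h2

theorem exists_set (Y k : ℕ) : ∃ Z ≥ k, A hΓ Z = A hΓ Y := by
  set φ : Form := .all 0 (.iff (.mem (.var 0) (Y + 1)) (.mem (.var 0) Y)) with hφ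
  have hsub : ∀ Z, φ.substSet (Y + 1) Z = .all 0 (.iff (.mem (.var 0) Z) (.mem (.var 0) Y)) := by
    intro Z
    have : ¬ Y = Y + 1 := by omega
    simp [hφ, Form.iff, Form.substSet]
  have h1 : Form.exSet (Y + 1) φ ∈ Γ := by
    refine exSet_intro hΓ (Y := Y) ?_ ?_
    · simp [hφ, Form.iff, Form.FreeForSet]
    · rw [hsub]
      have h2 : Prf T (.imp (.eq .zero .zero)
          (.iff (.mem (.var 0) Y) (.mem (.var 0) Y))) := by
        refine .taut ?_
        intro e hn ha ho hi
        simp only [hi, ha, Form.iff]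
        tauto
      have h3 : Prf T (.imp (.eq .zero .zero) (.all 0 (.iff (.mem (.var 0) Y) (.mem (.var 0) Y)))) :=
        .allIntro (by simp [Form.FreeNum, Term.Occurs]) h2
      exact hΓ.prf _ (.mp h3 (.eqRefl _))
  obtain ⟨Z, hZ, h2⟩ := hΓ.exSet _ _ h1 k
  rw [hsub] at h2
  refine ⟨Z, hZ, ?_⟩
  have h3 : ∀ t : Term, Form.mem t Z ∈ Γ ↔ Form.mem t Y ∈ Γ := by
    intro t
    have h4 := all_elim hΓ h2 (t := t) (by simp [Form.iff, Form.FreeFor])
    have h5 : (Form.iff (.mem (.var 0) Z) (.mem (.var 0) Y)).subst 0 t =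
        .iff (.mem t Z) (.mem t Y) := by
      simp [Form.iff, Form.subst, Term.subst]
    rw [h5] at h4
    exact (iff_iff hΓ _ _).1 h4
  ext q
  obtain ⟨t, rfl⟩ := Quotient.exists_rep q
  exact (mem_A hΓ).trans ((h3 t).trans (mem_A hΓ).symm)

theorem truth (hS : StmtDSub) (hS2 : StmtDSus) (hY : StmtDSyn) (hY2 : StmtDSys) :
    ∀ (n : ℕ) (φ : Form), size φ ≤ n → (φ.Sat (model hΓ) (va hΓ) (A hΓ) ↔ φ ∈ Γ) := by
  intro n
  induction n with
  | zero =>
    intro φ hφ
    cases φ with
    | eq s t => simp only [Form.Sat, eval_eq]; exact cls_eq hΓ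
    | lt s t => simp only [Form.Sat, eval_eq]; exact lt_iff hΓ
    | mem s X => simp only [Form.Sat, eval_eq]; exact mem_A hΓ
    | _ => simp only [size] at hφ; omega
  | succ n ih =>
    intro φ hφ
    cases φ with
    | eq s t => simp only [Form.Sat, eval_eq]; exact cls_eq hΓ
    | lt s t => simp only [Form.Sat, eval_eq]; exact lt_iff hΓ
    | mem s X => simp only [Form.Sat, eval_eq]; exact mem_A hΓ
    | neg φ =>
      simp only [size] at hφ
      rw [hΓ.neg, ← ih φ (by omega)]
      rfl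
    | and φ ψ =>
      simp only [size] at hφ
      rw [and_iff hΓ, ← ih φ (by omega), ← ih ψ (by omega)]
      rfl
    | or φ ψ =>
      simp only [size] at hφ
      rw [or_iff hΓ, ← ih φ (by omega), ← ih ψ (by omega)]
      rfl
    | imp φ ψ =>
      simp only [size] at hφ
      rw [imp_iff hΓ, ← ih φ (by omega), ← ih ψ (by omega)]
      rfl
    | all i φ =>
      simp only [size] at hφ
      have key : ∀ j, φ.bd ≤ j → i < j → (φ.subst i (.var j) ∈ Γ ↔
          φ.Sat (model hΓ) (Function.update (va hΓ) i (cls hΓ (.var j))) (A hΓ)) := by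
        intro j h1 h2
        have h3 := (hY φ i j h1 h2).1
        rw [← ih (φ.subst i (.var j)) (by rw [size_subst]; omega), hS _ _ _ _ h3]
        rfl
      constructor
      · intro h
        by_contra hcon
        obtain ⟨j, hj, h1⟩ := hΓ.ex _ _ (ex_of_not_all hΓ hcon) (max φ.bd (i + 1))
        have h2 : φ.subst i (.var j) ∉ Γ := (hΓ.neg _).1 h1
        rw [key j (le_trans (le_max_left _ _) hj) (lt_of_lt_of_le (Nat.lt_succ_self i)
          (le_trans (le_max_right _ _) hj))] at h2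
        exact h2 (h _)
      · intro h a
        obtain ⟨t, rfl⟩ := Quotient.exists_rep a
        obtain ⟨j, hj, h1⟩ := exists_var hΓ t (max φ.bd (i + 1))
        have hj1 := le_trans (le_max_left _ _) hj
        have hj2 := lt_of_lt_of_le (Nat.lt_succ_self i) (le_trans (le_max_right _ _) hj)
        have h2 := all_elim hΓ h (hY φ i j hj1 hj2).1
        rw [key j hj1 hj2, ← h1] at h2
        exact h2
    | ex i φ =>
      simp only [size] at hφ
      have key : ∀ j, φ.bd ≤ j → i < j → (φ.subst i (.var j) ∈ Γ ↔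
          φ.Sat (model hΓ) (Function.update (va hΓ) i (cls hΓ (.var j))) (A hΓ)) := by
        intro j h1 h2
        have h3 := (hY φ i j h1 h2).1
        rw [← ih (φ.subst i (.var j)) (by rw [size_subst]; omega), hS _ _ _ _ h3]
        rfl
      constructor
      · rintro ⟨a, ha⟩
        obtain ⟨t, rfl⟩ := Quotient.exists_rep a
        obtain ⟨j, hj, h1⟩ := exists_var hΓ t (max φ.bd (i + 1))
        have hj1 := le_trans (le_max_left _ _) hj
        have hj2 := lt_of_lt_of_le (Nat.lt_succ_self i) (le_trans (le_max_right _ _) hj)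
        refine ex_intro hΓ (hY φ i j hj1 hj2).1 ?_
        rw [key j hj1 hj2, ← h1]
        exact ha
      · intro h
        obtain ⟨j, hj, h1⟩ := hΓ.ex _ _ h (max φ.bd (i + 1))
        rw [key j (le_trans (le_max_left _ _) hj) (lt_of_lt_of_le (Nat.lt_succ_self i)
          (le_trans (le_max_right _ _) hj))] at h1
        exact ⟨_, h1⟩
    | allSet X φ =>
      simp only [size] at hφ
      have key : ∀ Z, φ.bd ≤ Z → X < Z → (φ.substSet X Z ∈ Γ ↔
          φ.Sat (model hΓ) (va hΓ) (Function.update (A hΓ) X (A hΓ Z))) := by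
        intro j h1 h2
        have h3 := (hY2 φ X j h1 h2).1
        rw [← ih (φ.substSet X j) (by rw [size_substSet]; omega), hS2 _ _ _ _ h3]
      constructor
      · intro h
        by_contra hcon
        obtain ⟨j, hj, h1⟩ := hΓ.exSet _ _ (exSet_of_not_all hΓ hcon) (max φ.bd (X + 1))
        have h2 : φ.substSet X j ∉ Γ := (hΓ.neg _).1 h1
        rw [key j (le_trans (le_max_left _ _) hj) (lt_of_lt_of_le (Nat.lt_succ_self X)
          (le_trans (le_max_right _ _) hj))] at h2
        exact h2 (h _ ⟨j, rfl⟩)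
      · rintro h _ ⟨Y, rfl⟩
        obtain ⟨j, hj, h1⟩ := exists_set hΓ Y (max φ.bd (X + 1))
        have hj1 := le_trans (le_max_left _ _) hj
        have hj2 := lt_of_lt_of_le (Nat.lt_succ_self X) (le_trans (le_max_right _ _) hj)
        have h2 := allSet_elim hΓ h (hY2 φ X j hj1 hj2).1
        rw [key j hj1 hj2, h1] at h2
        exact h2
    | exSet X φ =>
      simp only [size] at hφ
      have key : ∀ Z, φ.bd ≤ Z → X < Z → (φ.substSet X Z ∈ Γ ↔
          φ.Sat (model hΓ) (va hΓ) (Function.update (A hΓ) X (A hΓ Z))) := by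
        intro j h1 h2
        have h3 := (hY2 φ X j h1 h2).1
        rw [← ih (φ.substSet X j) (by rw [size_substSet]; omega), hS2 _ _ _ _ h3]
      constructor
      · rintro ⟨_, ⟨Y, rfl⟩, ha⟩
        obtain ⟨j, hj, h1⟩ := exists_set hΓ Y (max φ.bd (X + 1))
        have hj1 := le_trans (le_max_left _ _) hj
        have hj2 := lt_of_lt_of_le (Nat.lt_succ_self X) (le_trans (le_max_right _ _) hj)
        refine exSet_intro hΓ (hY2 φ X j hj1 hj2).1 ?_
        rw [key j hj1 hj2, h1]
        exact ha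
      · intro h
        obtain ⟨j, hj, h1⟩ := hΓ.exSet _ _ h (max φ.bd (X + 1))
        rw [key j (le_trans (le_max_left _ _) hj) (lt_of_lt_of_le (Nat.lt_succ_self X)
          (le_trans (le_max_right _ _) hj))] at h1
        exact ⟨_, ⟨j, rfl⟩, h1⟩

end

end Pool.Agent.OVW.TRU

namespace Pool.Agent.OVW

theorem t_Truth (hS : StmtDSub) (hS2 : StmtDSus) (hY : StmtDSyn) (hY2 : StmtDSys) : StmtTruth := by
  intro T Γ hΓ
  exact ⟨TRU.model hΓ, TRU.va hΓ, TRU.A hΓ, fun X => ⟨X, rfl⟩,
    fun φ => TRU.truth hΓ hS hS2 hY hY2 _ φ le_rfl⟩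

end Pool.Agent.OVW
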