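import Pool.Agent.OVW.D.Stmts

/-!
# Block D, WIS: a witness for an existential set quantifier can be added
-/

set_option autoImplicit false

namespace Pool.Agent.OVW

theorem t_DWis (hY : StmtDSys) : StmtDWis := by
  intro T γ χ X Y hγ hχ hc hn
  apply hc
  have hXY : X < Y := by
    have : X + 1 ≤ (Form.exSet X χ).bd := le_max_left _ _
    omega
  have hχ' : χ.bd ≤ Y := le_trans (le_max_right _ _) hχ
  obtain ⟨-, h2, h3, h4, h5⟩ := hY χ X Y hχ' hXY
  obtain ⟨-, -, -, -, g5⟩ := hY γ X Y hγ hXY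
  have s1 : Prf T (.imp (χ.substSet X Y) (.neg (.and γ (.exSet X χ)))) := by
    refine Prf.mp (Prf.taut ?_) hn
    intro e en ea eo ei
    simp only [en, ea, ei]
    tauto
  have s2 : Prf T (.imp (.exSet Y (χ.substSet X Y)) (.neg (.and γ (.exSet X χ)))) := by
    refine Prf.exSetElim ?_ s1
    rintro (h | ⟨_, h⟩)
    · exact g5 h
    · exact h5 h
  have s3 : Prf T (.imp χ (.exSet Y (χ.substSet X Y))) := by
    have := Prf.exSetIntro (T := T) (X := Y) (Y := X) h2
    rwa [h3] at this
  have s4 : Prf T (.imp (.exSet X χ) (.exSet Y (χ.substSet X Y))) :=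
    Prf.exSetElim (fun h => h4 h.2) s3
  refine Prf.mp (Prf.mp (Prf.taut ?_) s4) s2
  intro e en ea eo ei
  simp only [en, ea, ei]
  tauto

end Pool.Agent.OVW
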