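import Pool.Agent.OVW.D.Stmts

/-!
# Block D: a witness for an existential formula can be added (helper83)
-/

namespace Pool.Agent.OVW

theorem t_DWit (hY : StmtDSyn) : StmtDWit := by
  intro T γ χ i j hγ hχ hcon hprf
  have hi : i + 1 ≤ j := le_trans (le_max_left _ _) hχ
  have hχ' : χ.bd ≤ j := le_trans (le_max_right _ _) hχ
  obtain ⟨-, h2, h3, h4, h5⟩ := hY χ i j hχ' hi
  obtain ⟨-, -, -, -, g5⟩ := hY γ i j hγ hi
  refine hcon ?_
  have p1 : Prf T (.imp (χ.subst i (.var j)) (.neg (.and γ (.ex i χ)))) := by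
    refine Prf.mp (Prf.taut ?_) hprf
    intro e hn ha ho hi
    simp only [hn, ha, hi]
    tauto
  have p2 : Prf T (.imp (.ex j (χ.subst i (.var j))) (.neg (.and γ (.ex i χ)))) := by
    refine Prf.exElim ?_ p1
    rintro (h | ⟨-, h⟩)
    · exact g5 h
    · exact h5 h
  have p3 : Prf T (.imp χ (.ex j (χ.subst i (.var j)))) := by
    have h := Prf.exIntro (T := T) h2
    rwa [h3] at h
  have p4 : Prf T (.imp (.ex i χ) (.ex j (χ.subst i (.var j)))) := by
    refine Prf.exElim ?_ p3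
    rintro ⟨-, h⟩
    exact h4 h
  refine Prf.mp (Prf.mp (Prf.taut ?_) p4) p2
  intro e hn ha ho hi
  simp only [hn, ha, hi]
  tauto

end Pool.Agent.OVW
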