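import Pool.Agent.OVW.D.COI
import Pool.Agent.OVW.D.SUB
import Pool.Agent.OVW.D.SUS
import Pool.Agent.OVW.D.SND
import Pool.Agent.OVW.D.SYN
import Pool.Agent.OVW.D.SYS
import Pool.Agent.OVW.D.WIT
import Pool.Agent.OVW.D.WIS
import Pool.Agent.OVW.D.LIN
import Pool.Agent.OVW.D.TRU
import Pool.Agent.OVW.D.CLO

/-!
# Block D: soundness and completeness
-/

namespace Pool.Agent.OVW

/-- Soundness of the calculus. -/
theorem soundness : StmtSound := t_Sound t_DCoi (t_DSub t_DCoi) (t_DSus t_DCoi)

/-- Completeness of the calculus. -/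
theorem completeness (T : Set Form) (φ : Form) : Conseq T φ → Prf T φ :=
  completeness_of (t_Henkin (t_DWit t_DSyn) (t_DWis t_DSys))
    (t_Truth (t_DSub t_DCoi) (t_DSus t_DCoi) t_DSyn t_DSys) t_Clo1 (t_Clo2 t_DCoi) T φ

/-- Provability is consequence. -/
theorem prf_iff_conseq (T : Set Form) (φ : Form) : Prf T φ ↔ Conseq T φ :=
  ⟨soundness T φ, completeness T φ⟩

/-- Conservativity for provability and for consequence are the same. -/
theorem pi11Prf_iff (T S : Set Form) : Pi11PrfConservative T S ↔ Pi11Conservative T S := by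
  simp only [Pi11PrfConservative, Pi11Conservative, prf_iff_conseq]

end Pool.Agent.OVW
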