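import Pool.Agent.OVW.D.Stmts

/-! # Block D, module COI: the coincidence lemma -/

namespace Pool.Agent.OVW

namespace COI

theorem eval_congr (𝔐 : Model) (t : Term) {v v' : ℕ → 𝔐.M} (h : ∀ i, t.Occurs i → v i = v' i) :
    t.eval 𝔐 v = t.eval 𝔐 v' := by
  induction t with
  | var i => exact h i rfl
  | zero => rfl
  | one => rfl
  | add s t hs ht =>
    simp only [Term.eval]
    rw [hs fun i hi => h i (Or.inl hi), ht fun i hi => h i (Or.inr hi)]
  | mul s t hs ht =>
    simp only [Term.eval]
    rw [hs fun i hi => h i (Or.inl hi), ht fun i hi => h i (Or.inr hi)]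

theorem update_num {M : Type} {v v' : ℕ → M} {P : ℕ → Prop} {j : ℕ} (a : M)
    (h : ∀ i, i ≠ j ∧ P i → v i = v' i) (i : ℕ) (hi : P i) :
    Function.update v j a i = Function.update v' j a i := by
  by_cases hij : i = j
  · subst hij
    rw [Function.update_self, Function.update_self]
  · rw [Function.update_of_ne hij, Function.update_of_ne hij]
    exact h i ⟨hij, hi⟩

end COI

theorem t_DCoi : StmtDCoi := by
  intro 𝔐 φ
  induction φ with
  | eq s t =>
    intro v v' V V' h1 _
    simp only [Form.Sat]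
    rw [COI.eval_congr 𝔐 s fun i hi => h1 i (Or.inl hi),
      COI.eval_congr 𝔐 t fun i hi => h1 i (Or.inr hi)]
  | lt s t =>
    intro v v' V V' h1 _
    simp only [Form.Sat]
    rw [COI.eval_congr 𝔐 s fun i hi => h1 i (Or.inl hi),
      COI.eval_congr 𝔐 t fun i hi => h1 i (Or.inr hi)]
  | mem s X =>
    intro v v' V V' h1 h2
    simp only [Form.Sat]
    rw [COI.eval_congr 𝔐 s fun i hi => h1 i hi, h2 X rfl]
  | neg φ ih =>
    intro v v' V V' h1 h2
    simp only [Form.Sat]
    rw [ih v v' V V' h1 h2]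
  | and φ ψ ih1 ih2 =>
    intro v v' V V' h1 h2
    simp only [Form.Sat]
    rw [ih1 v v' V V' (fun i hi => h1 i (Or.inl hi)) (fun i hi => h2 i (Or.inl hi)),
      ih2 v v' V V' (fun i hi => h1 i (Or.inr hi)) (fun i hi => h2 i (Or.inr hi))]
  | or φ ψ ih1 ih2 =>
    intro v v' V V' h1 h2
    simp only [Form.Sat]
    rw [ih1 v v' V V' (fun i hi => h1 i (Or.inl hi)) (fun i hi => h2 i (Or.inl hi)),
      ih2 v v' V V' (fun i hi => h1 i (Or.inr hi)) (fun i hi => h2 i (Or.inr hi))]
  | imp φ ψ ih1 ih2 =>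
    intro v v' V V' h1 h2
    simp only [Form.Sat]
    rw [ih1 v v' V V' (fun i hi => h1 i (Or.inl hi)) (fun i hi => h2 i (Or.inl hi)),
      ih2 v v' V V' (fun i hi => h1 i (Or.inr hi)) (fun i hi => h2 i (Or.inr hi))]
  | all j φ ih =>
    intro v v' V V' h1 h2
    simp only [Form.Sat]
    exact forall_congr' fun a => ih _ _ V V' (COI.update_num a h1) h2
  | ex j φ ih =>
    intro v v' V V' h1 h2
    simp only [Form.Sat]
    exact exists_congr fun a => ih _ _ V V' (COI.update_num a h1) h2
  | allSet X φ ih =>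
    intro v v' V V' h1 h2
    simp only [Form.Sat]
    exact forall_congr' fun A => forall_congr' fun _ => ih v v' _ _ h1 (COI.update_num A h2)
  | exSet X φ ih =>
    intro v v' V V' h1 h2
    simp only [Form.Sat]
    exact exists_congr fun A => and_congr_right fun _ => ih v v' _ _ h1 (COI.update_num A h2)

end Pool.Agent.OVW
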