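import Pool.Agent.OVW.Calculus

/-!
# Block D: soundness and completeness of the calculus, statements
-/

namespace Pool.Agent.OVW

/-- A number larger than the numbers of the variables of the term. -/
def Term.bd : Term → ℕ
  | .var i => i + 1
  | .zero => 0
  | .one => 0
  | .add s t => max s.bd t.bd
  | .mul s t => max s.bd t.bd

/-- A number larger than the numbers of all number variables and set variables which occur, free
or bound, in the formula. -/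
def Form.bd : Form → ℕ
  | .eq s t => max s.bd t.bd
  | .lt s t => max s.bd t.bd
  | .mem s X => max s.bd (X + 1)
  | .neg φ => φ.bd
  | .and φ ψ => max φ.bd ψ.bd
  | .or φ ψ => max φ.bd ψ.bd
  | .imp φ ψ => max φ.bd ψ.bd
  | .all i φ => max (i + 1) φ.bd
  | .ex i φ => max (i + 1) φ.bd
  | .allSet X φ => max (X + 1) φ.bd
  | .exSet X φ => max (X + 1) φ.bd

/-- DSUB: the substitution lemma. -/
def StmtDSub : Prop := ∀ (𝔐 : Model) (i : ℕ) (t : Term) (φ : Form), φ.FreeFor i t →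
  ∀ (v : ℕ → 𝔐.M) (V : ℕ → Set 𝔐.M),
    (φ.subst i t).Sat 𝔐 v V ↔ φ.Sat 𝔐 (Function.update v i (t.eval 𝔐 v)) V

/-- DSUS: the substitution lemma for set variables. -/
def StmtDSus : Prop := ∀ (𝔐 : Model) (X Y : ℕ) (φ : Form), φ.FreeForSet X Y →
  ∀ (v : ℕ → 𝔐.M) (V : ℕ → Set 𝔐.M),
    (φ.substSet X Y).Sat 𝔐 v V ↔ φ.Sat 𝔐 v (Function.update V X (V Y))

/-- DCOI: the value of a formula depends on the values of its free variables only. -/
def StmtDCoi : Prop := ∀ (𝔐 : Model) (φ : Form) (v v' : ℕ → 𝔐.M) (V V' : ℕ → Set 𝔐.M),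
  (∀ i, φ.FreeNum i → v i = v' i) → (∀ X, φ.FreeSet X → V X = V' X) →
  (φ.Sat 𝔐 v V ↔ φ.Sat 𝔐 v' V')

/-- DSYN: a fresh number variable `xⱼ`. -/
def StmtDSyn : Prop := ∀ (φ : Form) (i j : ℕ), φ.bd ≤ j → i < j →
  φ.FreeFor i (.var j) ∧ (φ.subst i (.var j)).FreeFor j (.var i) ∧
  (φ.subst i (.var j)).subst j (.var i) = φ ∧ ¬ (φ.subst i (.var j)).FreeNum i ∧ ¬ φ.FreeNum j

/-- DSYS: a fresh set variable `Y`. -/
def StmtDSys : Prop := ∀ (φ : Form) (X Y : ℕ), φ.bd ≤ Y → X < Y →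
  φ.FreeForSet X Y ∧ (φ.substSet X Y).FreeForSet Y X ∧
  (φ.substSet X Y).substSet Y X = φ ∧ ¬ (φ.substSet X Y).FreeSet X ∧ ¬ φ.FreeSet Y

/-- `γ` is consistent with the theory `T`. -/
def Con (T : Set Form) (γ : Form) : Prop := ¬ Prf T (.neg γ)

/-- DWIT: a witness for an existential formula can be added. -/
def StmtDWit : Prop := ∀ (T : Set Form) (γ χ : Form) (i j : ℕ), γ.bd ≤ j → (Form.ex i χ).bd ≤ j →
  Con T (.and γ (.ex i χ)) → Con T (.and (.and γ (.ex i χ)) (χ.subst i (.var j)))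

/-- DWIS: a witness for an existential set quantifier can be added. -/
def StmtDWis : Prop := ∀ (T : Set Form) (γ χ : Form) (X Y : ℕ), γ.bd ≤ Y →
  (Form.exSet X χ).bd ≤ Y →
  Con T (.and γ (.exSet X χ)) → Con T (.and (.and γ (.exSet X χ)) (χ.substSet X Y))

/-- D1: soundness. -/
def StmtSound : Prop := ∀ (T : Set Form) (φ : Form), Prf T φ → Conseq T φ

/-- The properties of a complete Henkin set over the theory `T`. The witnesses of the existential
formulas are variables with arbitrarily large numbers. -/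
structure Henkin (T Γ : Set Form) : Prop where
  prf : ∀ φ, Prf T φ → φ ∈ Γ
  mp : ∀ φ ψ, Form.imp φ ψ ∈ Γ → φ ∈ Γ → ψ ∈ Γ
  neg : ∀ φ, Form.neg φ ∈ Γ ↔ φ ∉ Γ
  ex : ∀ i φ, Form.ex i φ ∈ Γ → ∀ k, ∃ j ≥ k, φ.subst i (.var j) ∈ Γ
  exSet : ∀ X φ, Form.exSet X φ ∈ Γ → ∀ k, ∃ Y ≥ k, φ.substSet X Y ∈ Γ

/-- D2: existence of complete Henkin sets. -/
def StmtHenkin : Prop := ∀ (T : Set Form) (φ : Form), ¬ Prf T φ → ∃ Γ, Henkin T Γ ∧ φ ∉ Γ

/-- D3: the model of a complete Henkin set. -/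
def StmtTruth : Prop := ∀ T Γ : Set Form, Henkin T Γ →
  ∃ (𝔐 : Model) (v : ℕ → 𝔐.M) (V : ℕ → Set 𝔐.M), (∀ X, V X ∈ 𝔐.S) ∧
    ∀ φ : Form, φ.Sat 𝔐 v V ↔ φ ∈ Γ

/-- Universal closure with respect to the variables with numbers `< k`. -/
def clo (k : ℕ) (φ : Form) : Form :=
  (List.range k).foldr (fun i ψ => .all i (.allSet i ψ)) φ

/-- D4: the universal closures of provable formulas are provable. -/
def StmtClo1 : Prop := ∀ (T : Set Form) (φ : Form), Prf T φ → ∀ k, Prf T (clo k φ)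

/-- D5: a universal closure is true under one assignment only if the formula is true under all. -/
def StmtClo2 : Prop := ∀ φ : Form, ∃ k, ∀ (𝔐 : Model) (v : ℕ → 𝔐.M) (V : ℕ → Set 𝔐.M),
  (∀ X, V X ∈ 𝔐.S) → (clo k φ).Sat 𝔐 v V → 𝔐.True φ

/-- The completeness theorem. -/
theorem completeness_of (h2 : StmtHenkin) (h3 : StmtTruth) (h4 : StmtClo1) (h5 : StmtClo2)
    (T : Set Form) (φ : Form) (h : Conseq T φ) : Prf T φ := by
  by_contra hn
  obtain ⟨Γ, hΓ, hφ⟩ := h2 T φ hn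
  obtain ⟨𝔐, v, V, hV, hs⟩ := h3 T Γ hΓ
  have hT : 𝔐.Models T := by
    intro ψ hψ
    obtain ⟨k, hk⟩ := h5 ψ
    exact hk 𝔐 v V hV ((hs _).2 (hΓ.prf _ (h4 T ψ (.ax hψ) k)))
  exact hφ ((hs φ).1 (h 𝔐 hT v V hV))

theorem prfConservative_of (h1 : StmtSound) (h2 : StmtHenkin) (h3 : StmtTruth) (h4 : StmtClo1)
    (h5 : StmtClo2) (T S : Set Form) (h : Pi11Conservative T S) : Pi11PrfConservative T S :=
  fun φ hφ hp => completeness_of h2 h3 h4 h5 S φ (h φ hφ (h1 T φ hp))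

end Pool.Agent.OVW
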